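import Pool.Agent.L7h52.PR.Main

/-!
# Consequences for the sequence of all the ordinates
-/

set_option autoImplicit false

open Filter Topology Set Polynomial MeasureTheory

namespace Pool.Agent.L7h52.PR

open SG (ord NZ)
open Pool.Agent.R846.UL (cn cn_mono cn_union cn_lt cn_biUnion cn_fin cn_nonneg ordlog cn_eq)

lemma Hol_restrict {k D a b a' b' : ℕ} {y : ℕ → ℝ} (h : Hol k D a b y)
    (h1 : ∀ j, a' ≤ j → j + k < b' → a ≤ j ∧ j + k < b) : Hol k D a' b' y := by
  obtain ⟨p, hp, hpD, q, hqD, hr⟩ := h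
  exact ⟨p, hp, hpD, q, hqD, fun j hj1 hj2 => hr j (h1 j hj1 hj2).1 (h1 j hj1 hj2).2⟩

lemma PHol_restrict {k D B a b a' b' : ℕ} {y : ℕ → ℝ} (h : PHol k D B a b y) (h1 : a ≤ a')
    (h2 : a' ≤ b') (h3 : b' ≤ b) : PHol k D B a' b' y := by
  obtain ⟨t, hm, h0, hB, hp⟩ := h
  refine ⟨fun s => max a' (min b' (t s)), ?_, ?_, ?_, ?_⟩
  · intro s s' hs
    exact max_le_max le_rfl (min_le_min le_rfl (hm hs))
  · simp only [h0]
    omega
  · simp only [hB]
    omega
  · intro s hs
    refine Hol_restrict (hp s hs) fun j hj1 hj2 => ?_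
    simp only at hj1 hj2
    have := hm (Nat.le_succ s)
    simp only [Nat.succ_eq_add_one] at this
    constructor <;> omega

lemma PHol_mono {k D B B' a b : ℕ} {y : ℕ → ℝ} (h : PHol k D B a b y) (hB : B ≤ B') :
    PHol k D B' a b y := by
  obtain ⟨t, hm, h0, hB', hp⟩ := h
  refine ⟨fun s => t (min s B), ?_, ?_, ?_, ?_⟩
  · intro s s' hs
    exact hm (min_le_min hs le_rfl)
  · simp [h0]
  · simp only [min_eq_right hB, hB']
  · intro s _
    rcases lt_or_ge s B with hs | hs
    · simp only [min_eq_left hs.le, min_eq_left (Nat.succ_le_of_lt hs)]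
      exact hp s hs
    · simp only [min_eq_right hs, min_eq_right (hs.trans (Nat.le_succ s))]
      refine ⟨fun _ => 1, ?_, fun _ => by simp, 0, by simp, fun j h1 h2 => by omega⟩
      intro h
      exact one_ne_zero (congrFun h 0)

/-- the whole sequence -/
theorem whole (k : ℕ) (M : ℝ) : ∃ δ : ℝ, 0 < δ ∧ ∃ m₀ : ℕ, ∀ m : ℕ, m₀ ≤ m →
    ∀ N : ℕ, 1 ≤ N → (m : ℝ) * Real.log m ≤ Real.log N → ∀ B D : ℕ, 1 ≤ B →
    2 * m ^ 4 * (B * (D + 1)) ≤ N → ∀ y : ℕ → ℝ, PHol k D B 1 (N + 1) y →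
      δ * N ≤ (({i : ℕ | 1 ≤ i ∧ i ≤ N ∧ M * Real.sqrt (Real.log m) / Real.log N < |ord i - y i|} :
        Set ℕ).ncard : ℝ) := by
  classical
  obtain ⟨δ, hδ, h⟩ := master k M
  obtain ⟨m₀, hm₀⟩ := h (1 / 4) (by norm_num)
  refine ⟨δ / 3, by positivity, m₀ + 2, fun m hm N hN hmN B D hB hBD y hy => ?_⟩
  by_contra hcon
  push Not at hcon
  have hmpos : 0 < m := by omega
  have hN2 : 2 ≤ N := by
    have h1 : 1 ≤ m ^ 4 * (B * (D + 1)) := by
      have : 0 < B := by omega
      have : 0 < m ^ 4 * (B * (D + 1)) := by positivity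
      omega
    have h2 : 2 * m ^ 4 * (B * (D + 1)) = 2 * (m ^ 4 * (B * (D + 1))) := by ring
    omega
  obtain ⟨L, hL⟩ : ∃ L : ℕ, L = N / 2 := ⟨_, rfl⟩
  have hBL : m ^ 4 * (B * (D + 1)) ≤ L := by
    have h2 : 2 * m ^ 4 * (B * (D + 1)) = 2 * (m ^ 4 * (B * (D + 1))) := by ring
    omega
  have hL3 : (N : ℝ) ≤ 3 * L := by
    have : N ≤ 3 * L := by omega
    exact_mod_cast this
  have h1 := hm₀ m (by omega) N hN hmN L (by omega) B D hB hBL
  have h2 : (L : ℝ) ≤ cn N {n | ∃ y : ℕ → ℝ, PHol k D B n (n + L) y ∧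
      (({i : ℕ | n ≤ i ∧ i < n + L ∧ M * Real.sqrt (Real.log m) / Real.log N < |ord i - y i|} :
        Set ℕ).ncard : ℝ) ≤ δ * L} := by
    have h3 : (L : ℝ) = cn N {n | n ≤ L} := by
      rw [cn_eq]
      have : (Finset.Icc 1 N).filter (fun n => n ≤ L) = Finset.Icc 1 L := by
        ext n
        simp only [Finset.mem_filter, Finset.mem_Icc]
        omega
      rw [this, Nat.card_Icc, Nat.add_sub_cancel]
    refine h3.le.trans (cn_mono fun n hn _ hnL => ?_)
    rw [Set.mem_setOf_eq] at hnL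
    refine ⟨y, PHol_restrict hy hn (by omega) (by omega), ?_⟩
    have h4 : (({i : ℕ | n ≤ i ∧ i < n + L ∧
        M * Real.sqrt (Real.log m) / Real.log N < |ord i - y i|} : Set ℕ).ncard : ℝ) ≤
        (({i : ℕ | 1 ≤ i ∧ i ≤ N ∧ M * Real.sqrt (Real.log m) / Real.log N < |ord i - y i|} :
        Set ℕ).ncard : ℝ) := by
      have h5 := Set.ncard_le_ncard (s := {i : ℕ | n ≤ i ∧ i < n + L ∧
        M * Real.sqrt (Real.log m) / Real.log N < |ord i - y i|})
        (t := {i : ℕ | 1 ≤ i ∧ i ≤ N ∧ M * Real.sqrt (Real.log m) / Real.log N < |ord i - y i|})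
        (fun i hi => ⟨hn.trans hi.1, by have := hi.2.1; omega, hi.2.2⟩)
        ((Set.finite_Icc 1 N).subset fun i hi => ⟨hi.1, hi.2.1⟩)
      exact_mod_cast h5
    have h6 : δ / 3 * N ≤ δ * L := by
      calc δ / 3 * N ≤ δ / 3 * (3 * L) := by gcongr
        _ = _ := by ring
    linarith
  have hLpos : (0 : ℝ) < L := by
    have : 0 < L := by omega
    exact_mod_cast this
  linarith

/-- cutting at the places where a relation fails -/
lemma cut {k a : ℕ} (R : ℕ → Prop) [DecidablePred R] (b : ℕ) (hab : a ≤ b) : ∃ t : ℕ → ℕ, Monotone t ∧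
    t 0 = a ∧ t (((Finset.Ico a b).filter fun j => j + (k + 1) < b ∧ ¬ R j).card + 1) = b ∧
    ∀ s < ((Finset.Ico a b).filter fun j => j + (k + 1) < b ∧ ¬ R j).card + 1, ∀ j, t s ≤ j →
      j + (k + 1) < t (s + 1) → R j := by
  induction b, hab using Nat.le_induction with
  | base =>
    exact ⟨fun _ => a, fun _ _ _ => le_rfl, rfl, rfl, fun s _ j h1 h2 => by
      have h3 : a ≤ j := h1
      have h4 : j + (k + 1) < a := h2
      omega⟩
  | succ b hab ih =>
    obtain ⟨t, hm, h0, hB, hp⟩ := ih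
    obtain ⟨F, hF⟩ : ∃ F, F = ((Finset.Ico a b).filter fun j => j + (k + 1) < b ∧ ¬ R j) := ⟨_, rfl⟩
    obtain ⟨F', hF'⟩ : ∃ F', F' = ((Finset.Ico a (b + 1)).filter
      fun j => j + (k + 1) < b + 1 ∧ ¬ R j) := ⟨_, rfl⟩
    rw [← hF] at hB hp
    rw [← hF']
    have htle : ∀ s, s ≤ F.card + 1 → t s ≤ b := fun s hs => by
      rw [← hB]
      exact hm hs
    have hta : ∀ s, a ≤ t s := fun s => by
      rw [← h0]
      exact hm (Nat.zero_le _)
    have hsub : F ⊆ F' := by
      intro j hj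
      rw [hF, Finset.mem_filter, Finset.mem_Ico] at hj
      rw [hF', Finset.mem_filter, Finset.mem_Ico]
      exact ⟨⟨hj.1.1, by omega⟩, by omega, hj.2.2⟩
    have hsub2 : F' ⊆ insert (b - (k + 1)) F := by
      intro j hj
      rw [hF', Finset.mem_filter, Finset.mem_Ico] at hj
      rw [Finset.mem_insert, hF, Finset.mem_filter, Finset.mem_Ico]
      rcases Nat.lt_or_ge (j + (k + 1)) b with h | h
      · exact Or.inr ⟨⟨hj.1.1, by omega⟩, h, hj.2.2⟩
      · exact Or.inl (by omega)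
    have hc1 := Finset.card_le_card hsub
    have hc2 := (Finset.card_le_card hsub2).trans (Finset.card_insert_le _ _)
    rcases Nat.lt_or_ge F.card F'.card with hlt | hge
    · have hcard : F'.card = F.card + 1 := by omega
      refine ⟨fun s => if s ≤ F.card + 1 then t s else b + 1, ?_, ?_, ?_, ?_⟩
      · intro s s' hs
        simp only
        split_ifs with g1 g2
        · exact hm hs
        · have := htle s g1
          omega
        · omega
        · exact le_rfl
      · simp [h0]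
      · simp [hcard]
      · intro s hs j hj1 hj2
        simp only [if_pos (show s ≤ F.card + 1 by omega)] at hj1
        rcases Nat.lt_or_ge s (F.card + 1) with h | h
        · simp only [if_pos (show s + 1 ≤ F.card + 1 by omega)] at hj2
          exact hp s h j hj1 hj2
        · have hs' : s = F.card + 1 := by omega
          subst hs'
          simp only at hj2
          rw [if_neg (by omega)] at hj2
          rw [hB] at hj1
          omega
    · have hcard : F'.card = F.card := by omega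
      have hFF : F = F' := Finset.eq_of_subset_of_card_le hsub hge
      refine ⟨fun s => if s ≤ F.card then t s else b + 1, ?_, ?_, ?_, ?_⟩
      · intro s s' hs
        simp only
        split_ifs with g1 g2
        · exact hm hs
        · have := htle s (by omega)
          omega
        · omega
        · exact le_rfl
      · simp [h0]
      · simp [hcard]
      · intro s hs j hj1 hj2
        simp only [if_pos (show s ≤ F.card by omega)] at hj1
        rcases Nat.lt_or_ge s F.card with h | h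
        · simp only [if_pos (show s + 1 ≤ F.card by omega)] at hj2
          exact hp s (by omega) j hj1 hj2
        · have hs' : s = F.card := by omega
          subst hs'
          simp only at hj2
          rw [if_neg (by omega)] at hj2
          rcases Nat.lt_or_ge (j + (k + 1)) b with h4 | h4
          · exact hp F.card (by omega) j hj1 (by rw [hB]; exact h4)
          · by_contra hR
            have h5 : j ∈ F' := by
              rw [hF', Finset.mem_filter, Finset.mem_Ico]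
              have := hta F.card
              exact ⟨⟨by omega, by omega⟩, hj2, hR⟩
            rw [← hFF, hF, Finset.mem_filter] at h5
            omega

/-- a sequence which satisfies a relation at all places but `f` is made of `f + 1` pieces -/
lemma PHol_of_rel {k D a b : ℕ} (hab : a ≤ b) {y : ℕ → ℝ} {p : Fin (k + 1) → ℝ[X]} (hp : p ≠ 0)
    (hpD : ∀ i, (p i).natDegree ≤ D) {q : ℝ[X]} (hqD : q.natDegree ≤ D) {f : ℕ}
    (hf : ({j : ℕ | a ≤ j ∧ j < b ∧
      ∑ i : Fin (k + 1), (p i).eval (j : ℝ) * y (j + i) ≠ q.eval (j : ℝ)} : Set ℕ).ncard ≤ f) :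
    PHol (k + 1) D (f + 1) a b y := by
  classical
  obtain ⟨t, hm, h0, hB, hr⟩ := cut (k := k) (a := a)
    (fun j => ∑ i : Fin (k + 1), (p i).eval (j : ℝ) * y (j + i) = q.eval (j : ℝ)) b hab
  refine PHol_mono (B := ((Finset.Ico a b).filter fun j => j + (k + 1) < b ∧
    ¬ (∑ i : Fin (k + 1), (p i).eval (j : ℝ) * y (j + i) = q.eval (j : ℝ))).card + 1)
    ⟨t, hm, h0, hB, fun s hs => ?_⟩ ?_
  · refine ⟨Fin.snoc p 0, ?_, ?_, q, hqD, fun j hj1 hj2 => ?_⟩
    · intro h
      apply hp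
      funext i
      have := congrFun h (Fin.castSucc i)
      simpa using this
    · intro i
      refine Fin.lastCases ?_ (fun i => ?_) i
      · simp
      · simpa using hpD i
    · rw [Fin.sum_univ_castSucc]
      simp only [Fin.snoc_castSucc, Fin.snoc_last, eval_zero, zero_mul, add_zero, Fin.val_castSucc]
      exact hr s hs j hj1 hj2
  · refine Nat.add_le_add_right (le_trans ?_ hf) 1
    rw [← Set.ncard_coe_finset]
    refine Set.ncard_le_ncard (fun j hj => ?_)
      ((Set.finite_Ico a b).subset fun j hj => ⟨hj.1, hj.2.1⟩)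
    rw [Finset.mem_coe, Finset.mem_filter, Finset.mem_Ico] at hj
    exact ⟨hj.1.1, hj.1.2, hj.2.2⟩

/-- exact relations -/
theorem exact_rel (k : ℕ) : ∃ c : ℝ, 0 < c ∧ ∃ N₀ : ℕ, ∀ N : ℕ, N₀ ≤ N → ∀ D : ℕ,
    (D : ℝ) + 1 ≤ c * N → ∀ p : Fin (k + 1) → ℝ[X], p ≠ 0 → (∀ i, (p i).natDegree ≤ D) →
    ∀ q : ℝ[X], q.natDegree ≤ D →
    c * N ≤ (D + 1) * (({n : ℕ | 1 ≤ n ∧ n ≤ N ∧
      ∑ i : Fin (k + 1), (p i).eval (n : ℝ) * ord (n + i) ≠ q.eval (n : ℝ)} : Set ℕ).ncard : ℝ) := by
  classical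
  obtain ⟨δ, hδ, m₀, h⟩ := whole (k + 1) 1
  obtain ⟨m, hm⟩ : ∃ m : ℕ, m = m₀ + 3 := ⟨_, rfl⟩
  have hmr : (3 : ℝ) ≤ m := by
    have : 3 ≤ m := by omega
    exact_mod_cast this
  obtain ⟨N₁, hN₁⟩ := ((Real.tendsto_log_atTop.comp tendsto_natCast_atTop_atTop).eventually_ge_atTop
    ((m : ℝ) * Real.log m)).exists_forall_of_atTop
  refine ⟨1 / (4 * m ^ 4), by positivity, N₁ + 2, fun N hN D hD p hp hpD q hqD => ?_⟩
  by_contra hcon
  push Not at hcon
  obtain ⟨f, hf⟩ : ∃ f : ℕ, f = ({n : ℕ | 1 ≤ n ∧ n ≤ N ∧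
      ∑ i : Fin (k + 1), (p i).eval (n : ℝ) * ord (n + i) ≠ q.eval (n : ℝ)} : Set ℕ).ncard := ⟨_, rfl⟩
  rw [← hf] at hcon
  have hset : ({j : ℕ | 1 ≤ j ∧ j < N + 1 ∧
      ∑ i : Fin (k + 1), (p i).eval (j : ℝ) * ord (j + i) ≠ q.eval (j : ℝ)} : Set ℕ) =
      {n : ℕ | 1 ≤ n ∧ n ≤ N ∧
      ∑ i : Fin (k + 1), (p i).eval (n : ℝ) * ord (n + i) ≠ q.eval (n : ℝ)} := by
    ext j
    simp only [Set.mem_setOf_eq, Nat.lt_succ_iff]
  have hP := PHol_of_rel (k := k) (D := D) (a := 1) (b := N + 1) (by omega) (y := ord) hp hpD hqD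
    (f := f) (by rw [hset, hf])
  have hNr : (0 : ℝ) < N := by
    have : 0 < N := by omega
    exact_mod_cast this
  have hBD : 2 * m ^ 4 * ((f + 1) * (D + 1)) ≤ N := by
    have h1 : (2 * m ^ 4 * ((f + 1) * (D + 1)) : ℝ) ≤ N := by
      have h2 : ((f : ℝ) + 1) * (D + 1) ≤ 2 * (1 / (4 * m ^ 4) * N) := by linarith
      calc (2 * m ^ 4 * ((f + 1) * (D + 1)) : ℝ) ≤ 2 * m ^ 4 * (2 * (1 / (4 * m ^ 4) * N)) := by
            gcongr
        _ = N := by
            field_simp
            norm_num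
    exact_mod_cast h1
  have h2 := h m (by omega) N (by omega) (hN₁ N (by omega)) (f + 1) D (by omega) hBD ord hP
  have h3 : ({i : ℕ | 1 ≤ i ∧ i ≤ N ∧ 1 * Real.sqrt (Real.log m) / Real.log N < |ord i - ord i|} :
      Set ℕ) = ∅ := by
    ext i
    simp only [sub_self, abs_zero, Set.mem_setOf_eq, Set.mem_empty_iff_false, iff_false, not_and,
      not_lt]
    intro _ _
    positivity
  rw [h3, Set.ncard_empty, Nat.cast_zero] at h2
  have : 0 < δ * N := by positivity
  linarith

end Pool.Agent.L7h52.PR
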