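import Pool.Agent.L7h52.PR.Cor

/-!
# Explicit forms
-/

set_option autoImplicit false

open Filter Topology Set Polynomial MeasureTheory

namespace Pool.Agent.L7h52.PR

open SG (ord NZ)

lemma PHol_pos {k D B N : ℕ} {y : ℕ → ℝ} (hN : 1 ≤ N) (h : PHol k D B 1 (N + 1) y) : 1 ≤ B := by
  obtain ⟨t, _, h0, hB, _⟩ := h
  rcases Nat.eq_zero_or_pos B with h1 | h1
  · rw [h1, h0] at hB
    omega
  · exact h1

/-- errors of the order of the mean spacing -/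
theorem whole_a (k : ℕ) (A : ℝ) : ∃ c : ℝ, 0 < c ∧ ∃ N₀ : ℕ, ∀ N : ℕ, N₀ ≤ N → ∀ B D : ℕ,
    ((B * (D + 1) : ℕ) : ℝ) ≤ c * N → ∀ y : ℕ → ℝ, PHol k D B 1 (N + 1) y →
      c * N ≤ (({i : ℕ | 1 ≤ i ∧ i ≤ N ∧ A / Real.log N < |ord i - y i|} : Set ℕ).ncard : ℝ) := by
  classical
  obtain ⟨δ, hδ, m₀, h⟩ := whole k |A|
  obtain ⟨m, hm⟩ : ∃ m : ℕ, m = m₀ + 3 := ⟨_, rfl⟩
  have hmr : (3 : ℝ) ≤ m := by
    have : 3 ≤ m := by omega
    exact_mod_cast this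
  obtain ⟨N₁, hN₁⟩ := ((Real.tendsto_log_atTop.comp tendsto_natCast_atTop_atTop).eventually_ge_atTop
    ((m : ℝ) * Real.log m)).exists_forall_of_atTop
  refine ⟨min δ (1 / (2 * m ^ 4)), lt_min hδ (by positivity), N₁ + 2, fun N hN B D hBD y hy => ?_⟩
  have hNr : (0 : ℝ) < N := by
    have : 0 < N := by omega
    exact_mod_cast this
  have h1 : 2 * m ^ 4 * (B * (D + 1)) ≤ N := by
    have h2 : (2 * m ^ 4 * ((B * (D + 1) : ℕ) : ℝ)) ≤ N := by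
      have h3 : ((B * (D + 1) : ℕ) : ℝ) ≤ 1 / (2 * m ^ 4) * N :=
        hBD.trans (mul_le_mul_of_nonneg_right (min_le_right _ _) hNr.le)
      calc (2 * m ^ 4 * ((B * (D + 1) : ℕ) : ℝ)) ≤ 2 * (m : ℝ) ^ 4 * (1 / (2 * (m : ℝ) ^ 4) * N) := by
            gcongr
        _ = (N : ℝ) := by
            field_simp
    exact_mod_cast h2
  have h2 := h m (by omega) N (by omega) (hN₁ N (by omega)) B D (PHol_pos (by omega) hy) h1 y hy
  refine le_trans (mul_le_mul_of_nonneg_right (min_le_left _ _) hNr.le) (h2.trans ?_)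
  have h3 : A / Real.log N ≤ |A| * Real.sqrt (Real.log m) / Real.log N := by
    have h4 : 1 ≤ Real.sqrt (Real.log m) := by
      rw [Real.one_le_sqrt, Real.le_log_iff_exp_le (by linarith)]
      have := Real.exp_one_lt_d9
      linarith
    have h5 : A ≤ |A| * Real.sqrt (Real.log m) := by
      have := le_abs_self A
      have := abs_nonneg A
      nlinarith
    have h6 : 0 ≤ Real.log N := Real.log_natCast_nonneg N
    gcongr
  have h7 := Set.ncard_le_ncard (s := {i : ℕ | 1 ≤ i ∧ i ≤ N ∧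
    |A| * Real.sqrt (Real.log m) / Real.log N < |ord i - y i|})
    (t := {i : ℕ | 1 ≤ i ∧ i ≤ N ∧ A / Real.log N < |ord i - y i|})
    (fun i hi => ⟨hi.1, hi.2.1, lt_of_le_of_lt h3 hi.2.2⟩)
    ((Set.finite_Icc 1 N).subset fun i hi => ⟨hi.1, hi.2.1⟩)
  exact_mod_cast h7

/-- errors of the order of the typical size of the fluctuations -/
theorem whole_b (k : ℕ) (M : ℝ) {ε : ℝ} (hε : 0 < ε) : ∃ δ : ℝ, 0 < δ ∧ ∃ N₀ : ℕ, ∀ N : ℕ,
    N₀ ≤ N → ∀ B D : ℕ, ((B * (D + 1) : ℕ) : ℝ) ≤ N / Real.log N ^ ε → ∀ y : ℕ → ℝ,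
      PHol k D B 1 (N + 1) y →
      δ * N ≤ (({i : ℕ | 1 ≤ i ∧ i ≤ N ∧
        M * Real.sqrt (Real.log (Real.log N)) / Real.log N < |ord i - y i|} : Set ℕ).ncard : ℝ) := by
  classical
  obtain ⟨ε', hε'⟩ : ∃ ε' : ℝ, ε' = min ε 1 := ⟨_, rfl⟩
  have hε0 : 0 < ε' := by rw [hε']; exact lt_min hε one_pos
  have hε1 : ε' ≤ 1 := by rw [hε']; exact min_le_right _ _
  have hε2 : ε' ≤ ε := by rw [hε']; exact min_le_left _ _
  obtain ⟨δ, hδ, m₀, h⟩ := whole k (|M| * Real.sqrt (16 / ε'))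
  have hlim : Tendsto (fun N : ℕ => Real.log N ^ (ε' / 16)) atTop atTop :=
    (tendsto_rpow_atTop (by positivity)).comp
      (Real.tendsto_log_atTop.comp tendsto_natCast_atTop_atTop)
  obtain ⟨N₁, hN₁⟩ := (hlim.eventually_ge_atTop ((m₀ : ℝ) + 2)).exists_forall_of_atTop
  refine ⟨δ, hδ, N₁ + 3, fun N hN B D hBD y hy => ?_⟩
  have hx0 := hN₁ N (by omega)
  obtain ⟨ℓ, hℓ⟩ : ∃ ℓ : ℝ, ℓ = Real.log N := ⟨_, rfl⟩
  obtain ⟨x, hx⟩ : ∃ x : ℝ, x = ℓ ^ (ε' / 16) := ⟨_, rfl⟩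
  rw [← hℓ] at hx0 hBD ⊢
  rw [← hx] at hx0
  have hm₀ : (0 : ℝ) ≤ m₀ := Nat.cast_nonneg _
  have hx2 : 2 ≤ x := by linarith
  have hNr : (3 : ℝ) ≤ N := by
    have : 3 ≤ N := by omega
    exact_mod_cast this
  have hℓ1 : 1 ≤ ℓ := by
    rw [hℓ, Real.le_log_iff_exp_le (by linarith)]
    have := Real.exp_one_lt_d9
    linarith
  have hx16 : x ^ 16 = ℓ ^ ε' := by
    rw [hx, ← Real.rpow_natCast, ← Real.rpow_mul (by linarith)]
    congr 1
    push_cast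
    ring
  have hxℓ : x ^ 16 ≤ ℓ := by
    rw [hx16]
    calc ℓ ^ ε' ≤ ℓ ^ (1 : ℝ) := Real.rpow_le_rpow_of_exponent_le hℓ1 hε1
      _ = ℓ := Real.rpow_one ℓ
  have hxε : x ^ 16 ≤ ℓ ^ ε := by
    rw [hx16]
    exact Real.rpow_le_rpow_of_exponent_le hℓ1 hε2
  have hlogx : Real.log x = ε' / 16 * Real.log ℓ := by
    rw [hx, Real.log_rpow (by linarith)]
  obtain ⟨m, hm⟩ : ∃ m : ℕ, m = ⌊x ^ 2⌋₊ := ⟨_, rfl⟩
  have hm1 : (m : ℝ) ≤ x ^ 2 := by rw [hm]; exact Nat.floor_le (by positivity)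
  have hm2 : x ^ 2 < m + 1 := by rw [hm]; exact Nat.lt_floor_add_one _
  have hmx : x ≤ m := by nlinarith
  have hmm₀ : m₀ ≤ m := by
    have : (m₀ : ℝ) ≤ m := by linarith
    exact_mod_cast this
  have hm0 : (0 : ℝ) < m := by linarith
  have hmlog : (m : ℝ) * Real.log m ≤ Real.log N := by
    rw [← hℓ]
    have h1 : Real.log m ≤ m := by
      have := Real.log_le_sub_one_of_pos hm0
      linarith
    calc (m : ℝ) * Real.log m ≤ m * m := mul_le_mul_of_nonneg_left h1 hm0.le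
      _ ≤ x ^ 2 * x ^ 2 := by gcongr
      _ = x ^ 4 := by ring
      _ ≤ x ^ 16 := pow_le_pow_right₀ (by linarith) (by norm_num)
      _ ≤ ℓ := hxℓ
  have h1 : 2 * m ^ 4 * (B * (D + 1)) ≤ N := by
    have h2 : (2 * m ^ 4 * ((B * (D + 1) : ℕ) : ℝ)) ≤ N := by
      have h3 : (N : ℝ) / ℓ ^ ε ≤ N / x ^ 16 := by gcongr
      have h4 : (m : ℝ) ^ 4 ≤ (x ^ 2) ^ 4 := by gcongr
      have h5 : 2 ≤ x ^ 8 := by
        calc (2 : ℝ) ≤ 2 ^ 8 := by norm_num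
          _ ≤ x ^ 8 := by gcongr
      calc (2 * m ^ 4 * ((B * (D + 1) : ℕ) : ℝ)) ≤ 2 * (x ^ 2) ^ 4 * (N / x ^ 16) := by
            gcongr
            exact hBD.trans h3
        _ = N * (2 / x ^ 8) := by
            field_simp
        _ ≤ N * 1 := by
            apply mul_le_mul_of_nonneg_left _ (by linarith)
            rw [div_le_one (by positivity)]
            exact h5
        _ = N := mul_one _
    exact_mod_cast h2
  have h2 := h m hmm₀ N (by omega) hmlog B D (PHol_pos (by omega) hy) h1 y hy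
  refine h2.trans ?_
  have h3 : M * Real.sqrt (Real.log ℓ) / ℓ ≤
      |M| * Real.sqrt (16 / ε') * Real.sqrt (Real.log m) / ℓ := by
    have h4 : Real.log x ≤ Real.log m := Real.log_le_log (by linarith) hmx
    have h5 : Real.log ℓ ≤ 16 / ε' * Real.log m := by
      rw [hlogx] at h4
      calc Real.log ℓ = 16 / ε' * (ε' / 16 * Real.log ℓ) := by field_simp
        _ ≤ _ := by gcongr
    have h6 : Real.sqrt (Real.log ℓ) ≤ Real.sqrt (16 / ε') * Real.sqrt (Real.log m) := by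
      rw [← Real.sqrt_mul (by positivity)]
      exact Real.sqrt_le_sqrt h5
    have h7 : M * Real.sqrt (Real.log ℓ) ≤ |M| * (Real.sqrt (16 / ε') * Real.sqrt (Real.log m)) := by
      have := le_abs_self M
      gcongr
    rw [mul_assoc]
    gcongr
  rw [← hℓ]
  have h7 := Set.ncard_le_ncard (s := {i : ℕ | 1 ≤ i ∧ i ≤ N ∧
    |M| * Real.sqrt (16 / ε') * Real.sqrt (Real.log m) / ℓ < |ord i - y i|})
    (t := {i : ℕ | 1 ≤ i ∧ i ≤ N ∧ M * Real.sqrt (Real.log ℓ) / ℓ < |ord i - y i|})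
    (fun i hi => ⟨hi.1, hi.2.1, lt_of_le_of_lt h3 hi.2.2⟩)
    ((Set.finite_Icc 1 N).subset fun i hi => ⟨hi.1, hi.2.1⟩)
  exact_mod_cast h7

end Pool.Agent.L7h52.PR
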