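import Mathlib

/-!
# Elimination: decimation of recurrences with polynomial coefficients
-/

set_option autoImplicit false

open Polynomial

namespace Pool.Agent.L7h52.PR

/-- the coordinates: the terms `y (j + s)`, `s ≤ S`, and the constants `1` and `w` -/
abbrev Ix (S : ℕ) : Type := Fin (S + 1) ⊕ Bool

abbrev Vec (S : ℕ) : Type := Ix S → ℝ[X]

/-- the unit vectors -/
noncomputable def E' (S s : ℕ) : Vec S :=
  if h : s < S + 1 then Pi.single (Sum.inl ⟨s, h⟩) 1 else 0

/-- evaluation at `j` -/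
noncomputable def ev (S : ℕ) (Y : ℕ → ℝ) (w : ℝ) (j : ℕ) (P : Vec S) : ℝ :=
  ∑ s : Fin (S + 1), (P (Sum.inl s)).eval (j : ℝ) * Y (j + s) + (P (Sum.inr true)).eval (j : ℝ) +
    (P (Sum.inr false)).eval (j : ℝ) * w

section

variable (S : ℕ) (Y : ℕ → ℝ) (w : ℝ) (j : ℕ)

lemma ev_add (P Q : Vec S) : ev S Y w j (P + Q) = ev S Y w j P + ev S Y w j Q := by
  unfold ev
  simp only [Pi.add_apply, eval_add, add_mul, Finset.sum_add_distrib]
  ring

lemma ev_smul (f : ℝ[X]) (P : Vec S) : ev S Y w j (f • P) = f.eval (j : ℝ) * ev S Y w j P := by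
  unfold ev
  simp only [Pi.smul_apply, smul_eq_mul, eval_mul, mul_add, Finset.mul_sum, mul_assoc]

lemma ev_zero : ev S Y w j 0 = 0 := by
  unfold ev
  simp

lemma ev_sum {ι : Type*} (s : Finset ι) (P : ι → Vec S) :
    ev S Y w j (∑ i ∈ s, P i) = ∑ i ∈ s, ev S Y w j (P i) := by
  classical
  induction s using Finset.induction_on with
  | empty => simp [ev_zero]
  | insert a s ha ih => rw [Finset.sum_insert ha, Finset.sum_insert ha, ev_add, ih]

lemma ev_neg (P : Vec S) : ev S Y w j (-P) = -ev S Y w j P := by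
  have := ev_smul S Y w j (C (-1)) P
  rw [eval_C] at this
  have h : (C (-1) : ℝ[X]) • P = -P := by
    funext s
    simp
  rw [h] at this
  linarith

lemma ev_E' {s : ℕ} (hs : s ≤ S) : ev S Y w j (E' S s) = Y (j + s) := by
  have h : s < S + 1 := by omega
  unfold ev E'
  rw [dif_pos h, Finset.sum_eq_single (⟨s, h⟩ : Fin (S + 1))]
  · simp
  · intro b _ hb
    rw [Pi.single_eq_of_ne (by simpa using hb)]
    simp
  · intro hh
    exact absurd (Finset.mem_univ _) hh

lemma ev_one : ev S Y w j (Pi.single (Sum.inr true) 1) = 1 := by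
  unfold ev
  simp

lemma ev_w : ev S Y w j (Pi.single (Sum.inr false) 1) = w := by
  unfold ev
  simp

end

lemma E'_inl (S s : ℕ) (u : Fin (S + 1)) : E' S s (Sum.inl u) = if (u : ℕ) = s then 1 else 0 := by
  unfold E'
  split_ifs with h h1 h1
  · subst h1
    simp
  · rw [Pi.single_eq_of_ne]
    intro hh
    apply h1
    simp only [Sum.inl.injEq] at hh
    rw [hh]
  · omega
  · rfl

lemma E'_inr (S s : ℕ) (u : Bool) : E' S s (Sum.inr u) = 0 := by
  unfold E'
  split_ifs with h
  · simp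
  · rfl

section

variable {k : ℕ} (p : Fin (k + 1) → ℝ[X]) (q : ℝ[X])

/-- the recurrence shifted by `t` -/
noncomputable def Rv (S t : ℕ) : Vec S :=
  ∑ i : Fin (k + 1), ((p i).comp (X + C (t : ℝ))) • E' S (t + i) +
    (-(q.comp (X + C (t : ℝ)))) • (Pi.single (Sum.inr true) 1 : Vec S)

/-- the vector of `y (j + s + m) - y (j + s) - w` -/
noncomputable def Av (S m s : ℕ) : Vec S :=
  E' S (s + m) + -E' S s + -(Pi.single (Sum.inr false) 1 : Vec S)

lemma ev_Rv {S t : ℕ} (ht : t + k ≤ S) (Y : ℕ → ℝ) (w : ℝ) (j : ℕ) :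
    ev S Y w j (Rv p q S t) = ∑ i : Fin (k + 1), (p i).eval ((j + t : ℕ) : ℝ) * Y (j + t + i) -
      q.eval ((j + t : ℕ) : ℝ) := by
  unfold Rv
  rw [ev_add, ev_sum, ev_smul, ev_one]
  simp only [eval_neg, eval_comp, eval_add, eval_X, eval_C, mul_one]
  rw [← sub_eq_add_neg]
  congr 1
  · refine Finset.sum_congr rfl fun i _ => ?_
    rw [ev_smul, ev_E' S Y w j (by omega)]
    simp only [eval_comp, eval_add, eval_X, eval_C]
    push_cast
    rw [add_assoc]
  · push_cast
    rfl

lemma ev_Av {S m s : ℕ} (hs : s + m ≤ S) (Y : ℕ → ℝ) (w : ℝ) (j : ℕ) :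
    ev S Y w j (Av S m s) = Y (j + s + m) - Y (j + s) - w := by
  unfold Av
  rw [ev_add, ev_add, ev_neg, ev_neg, ev_w, ev_E' S Y w j (by omega), ev_E' S Y w j (by omega),
    ← add_assoc]
  ring

lemma Rv_inl (S t : ℕ) (u : Fin (S + 1)) :
    Rv p q S t (Sum.inl u) =
      ∑ i : Fin (k + 1), if (u : ℕ) = t + i then (p i).comp (X + C (t : ℝ)) else 0 := by
  unfold Rv
  simp only [Pi.add_apply, Finset.sum_apply, Pi.smul_apply, smul_eq_mul, E'_inl]
  rw [Pi.single_eq_of_ne (by simp), mul_zero, add_zero]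
  refine Finset.sum_congr rfl fun i _ => ?_
  split_ifs <;> simp

lemma comp_deg {f : ℝ[X]} {D : ℕ} (h : f.natDegree ≤ D) (t : ℕ) :
    (f.comp (X + C (t : ℝ))).natDegree ≤ D := by
  rw [natDegree_comp, natDegree_X_add_C, mul_one]
  exact h

lemma Rv_deg {D : ℕ} (hp : ∀ i, (p i).natDegree ≤ D) (hq : q.natDegree ≤ D) (S t : ℕ)
    (u : Ix S) : (Rv p q S t u).natDegree ≤ D := by
  cases u with
  | inl u =>
    rw [Rv_inl]
    refine natDegree_sum_le_of_forall_le _ _ fun i _ => ?_
    split_ifs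
    · exact comp_deg (hp i) t
    · simp
  | inr u =>
    unfold Rv
    simp only [Pi.add_apply, Finset.sum_apply, Pi.smul_apply, smul_eq_mul, E'_inr, mul_zero,
      Finset.sum_const_zero, zero_add]
    cases u with
    | true =>
      rw [Pi.single_eq_same, mul_one, natDegree_neg]
      exact comp_deg hq t
    | false =>
      rw [Pi.single_eq_of_ne (by simp), mul_zero]
      simp

lemma Av_deg (S m s : ℕ) (u : Ix S) : (Av S m s u).natDegree ≤ 0 := by
  unfold Av
  cases u with
  | inl u =>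
    simp only [Pi.add_apply, Pi.neg_apply, E'_inl]
    rw [Pi.single_eq_of_ne (by simp), neg_zero, add_zero]
    split_ifs <;> simp
  | inr u =>
    simp only [Pi.add_apply, Pi.neg_apply, E'_inr, neg_zero, zero_add, natDegree_neg]
    cases u with
    | true =>
      rw [Pi.single_eq_of_ne (by simp)]
      simp
    | false =>
      rw [Pi.single_eq_same]
      simp

/-- the shifted recurrences are independent over the polynomials -/
lemma indep (hp : p ≠ 0) {S T : ℕ} (hT : T + k ≤ S + 1) (u : Fin T → ℝ[X])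
    (h : ∑ t : Fin T, u t • Rv p q S t = 0) : u = 0 := by
  classical
  by_contra hu
  obtain ⟨i1, hi1⟩ := Function.ne_iff.mp hp
  obtain ⟨t1, ht1⟩ := Function.ne_iff.mp hu
  obtain ⟨i0, hi0, hi0m⟩ := Finset.exists_max_image (Finset.univ.filter fun i => p i ≠ 0)
    (fun i : Fin (k + 1) => (i : ℕ)) ⟨i1, by simpa using hi1⟩
  obtain ⟨t0, ht0, ht0m⟩ := Finset.exists_max_image (Finset.univ.filter fun t => u t ≠ 0)
    (fun t : Fin T => (t : ℕ)) ⟨t1, by simpa using ht1⟩
  rw [Finset.mem_filter] at hi0 ht0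
  have hlt : (t0 : ℕ) + i0 < S + 1 := by
    have := t0.isLt
    have := i0.isLt
    omega
  have h1 := congrFun h (Sum.inl ⟨(t0 : ℕ) + i0, hlt⟩)
  rw [Finset.sum_apply, Finset.sum_eq_single t0] at h1
  · rw [Pi.smul_apply, smul_eq_mul, Rv_inl, Finset.sum_eq_single i0, if_pos rfl, Pi.zero_apply,
      mul_eq_zero] at h1
    · rcases h1 with h1 | h1
      · exact ht0.2 h1
      · apply hi0.2
        rw [comp_eq_zero_iff] at h1
        rcases h1 with h1 | h1
        · exact h1
        · exfalso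
          have h2 := h1.2
          have h3 : (X + C ((t0 : ℕ) : ℝ) : ℝ[X]).natDegree = 1 := natDegree_X_add_C _
          rw [h2, natDegree_C] at h3
          exact absurd h3 (by norm_num)
    · intro b _ hb
      rw [if_neg]
      intro hh
      apply hb
      apply Fin.ext
      have : (t0 : ℕ) + i0 = t0 + b := hh
      omega
    · intro hh
      exact absurd (Finset.mem_univ _) hh
  · intro t _ ht
    rw [Pi.smul_apply, smul_eq_mul]
    by_cases hut : u t = 0
    · rw [hut, zero_mul]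
    · have h2 := ht0m t (by simpa using hut)
      have h3 : (t : ℕ) < t0 := lt_of_le_of_ne h2 fun hh => ht (Fin.ext hh)
      rw [Rv_inl, Finset.sum_eq_zero, mul_zero]
      intro i _
      split_ifs with hh
      · have h4 : (t0 : ℕ) + i0 = t + i := hh
        have h5 : p i = 0 := by
          by_contra h6
          have h7 := hi0m i (by simpa using h6)
          have h8 : (i : ℕ) ≤ i0 := h7
          omega
        rw [h5, zero_comp]
      · rfl
  · intro hh
    exact absurd (Finset.mem_univ _) hh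

/-- the family of the multiples of the vectors by powers of `X` -/
noncomputable def Fam (K F G T S m r : ℕ) : (Fin (K + 1) × Fin (F + 1)) ⊕ (Fin T × Fin G) → Vec S
  | Sum.inl x => (X ^ (x.2 : ℕ) : ℝ[X]) • Av S m (x.1 * r)
  | Sum.inr x => (X ^ (x.2 : ℕ) : ℝ[X]) • Rv p q S x.1

/-- **elimination** -/
theorem elim_coef {D m r K S : ℕ} (hK : K = k + 2) (hS : S = K * r + m) (hr : 1 ≤ r) (hp : p ≠ 0)
    (hpD : ∀ i, (p i).natDegree ≤ D) (hqD : q.natDegree ≤ D) :
    ∃ c : Fin (K + 1) → ℝ[X], c ≠ 0 ∧ (∀ i, (c i).natDegree ≤ (S + 1) * D) ∧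
      ∀ (Y : ℕ → ℝ) (a b : ℕ),
        (∀ j, a ≤ j → j + k < b →
          ∑ i : Fin (k + 1), (p i).eval (j : ℝ) * Y (j + i) = q.eval (j : ℝ)) →
        ∀ w : ℝ, ∀ j, a ≤ j → j + S < b →
          ∑ i : Fin (K + 1), (c i).eval (j : ℝ) * (Y (j + i * r + m) - Y (j + i * r) - w) = 0 := by
  classical
  have hKr : K ≤ K * r := Nat.le_mul_of_pos_right _ hr
  obtain ⟨F, hF⟩ : ∃ F, F = (S + 1) * D := ⟨_, rfl⟩
  obtain ⟨T, hT⟩ : ∃ T, T = S - k + 1 := ⟨_, rfl⟩
  obtain ⟨G, hG⟩ : ∃ G, G = F - D + 1 := ⟨_, rfl⟩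
  have hFD : D ≤ F := by rw [hF]; nlinarith
  have hTk : T + k = S + 1 := by omega
  -- the relation
  obtain ⟨P, hP⟩ : ∃ P, P = Fam p q K F G T S m r := ⟨_, rfl⟩
  have hPdeg : ∀ x u, (P x u).natDegree ≤ F := by
    intro x u
    rw [hP]
    rcases x with x | x
    · unfold Fam
      simp only [Pi.smul_apply, smul_eq_mul]
      refine natDegree_mul_le.trans ?_
      have h1 := Av_deg S m (x.1 * r) u
      have h2 := x.2.isLt
      rw [natDegree_X_pow]
      omega
    · unfold Fam
      simp only [Pi.smul_apply, smul_eq_mul]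
      refine natDegree_mul_le.trans ?_
      have h1 := Rv_deg p q hpD hqD S x.1 u
      have h2 := x.2.isLt
      rw [natDegree_X_pow]
      omega
  have hnot : ¬ LinearIndependent ℝ (fun x => (fun ul : Ix S × Fin (F + 1) =>
      (P x ul.1).coeff (ul.2 : ℕ) : Ix S × Fin (F + 1) → ℝ)) := by
    intro hli
    have h1 := hli.fintype_card_le_finrank
    rw [Module.finrank_fintype_fun_eq_card] at h1
    simp only [Fintype.card_sum, Fintype.card_prod, Fintype.card_fin, Fintype.card_bool] at h1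
    have h2 : T * G = T * (F + 1) - T * D := by
      rw [hG, ← Nat.mul_sub]
      congr 1
      omega
    have h3 : T * D ≤ F := by
      rw [hF]
      exact Nat.mul_le_mul_right _ (by omega)
    have h4 : T * D ≤ T * (F + 1) := Nat.mul_le_mul_left _ (by omega)
    have h5 : (K + 1) * (F + 1) + T * (F + 1) = (S + 1 + 2) * (F + 1) + (F + 1) := by
      rw [← add_mul, ← Nat.succ_mul]
      congr 1
      omega
    omega
  rw [Fintype.not_linearIndependent_iff] at hnot
  obtain ⟨g, hg0, x0, hx0⟩ := hnot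
  have hgP : ∑ x, C (g x) • P x = 0 := by
    funext u
    rw [Finset.sum_apply, Pi.zero_apply]
    ext l
    rw [finsetSum_coeff, coeff_zero]
    rcases lt_or_ge F l with hl | hl
    · refine Finset.sum_eq_zero fun x _ => ?_
      rw [Pi.smul_apply, smul_eq_mul, coeff_C_mul, coeff_eq_zero_of_natDegree_lt
        (lt_of_le_of_lt (hPdeg x u) hl), mul_zero]
    · have h1 := congrFun hg0 (u, ⟨l, by omega⟩)
      rw [Finset.sum_apply, Pi.zero_apply] at h1
      rw [← h1]
      refine Finset.sum_congr rfl fun x _ => ?_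
      rw [Pi.smul_apply, smul_eq_mul, coeff_C_mul, Pi.smul_apply, smul_eq_mul]
  obtain ⟨c, hc⟩ : ∃ c : Fin (K + 1) → ℝ[X], c = fun i => ∑ l : Fin (F + 1),
    C (g (Sum.inl (i, l))) * X ^ (l : ℕ) := ⟨_, rfl⟩
  obtain ⟨u, hu⟩ : ∃ u : Fin T → ℝ[X], u = fun i => ∑ l : Fin G,
    C (g (Sum.inr (i, l))) * X ^ (l : ℕ) := ⟨_, rfl⟩
  have hcu : ∑ i, c i • Av S m (i * r) + ∑ t, u t • Rv p q S t = 0 := by
    rw [← hgP, Fintype.sum_sum_type, Fintype.sum_prod_type, Fintype.sum_prod_type]
    congr 1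
    · refine Finset.sum_congr rfl fun i _ => ?_
      rw [hc]
      simp only [Finset.sum_smul]
      refine Finset.sum_congr rfl fun l _ => ?_
      rw [hP, mul_smul]
      rfl
    · refine Finset.sum_congr rfl fun i _ => ?_
      rw [hu]
      simp only [Finset.sum_smul]
      refine Finset.sum_congr rfl fun l _ => ?_
      rw [hP, mul_smul]
      rfl
  have hcoef : ∀ (n : ℕ) (f : Fin n → ℝ) (l : Fin n),
      (∑ l : Fin n, C (f l) * X ^ (l : ℕ) : ℝ[X]).coeff l = f l := by
    intro n f l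
    rw [finsetSum_coeff, Finset.sum_eq_single l]
    · rw [coeff_C_mul, coeff_X_pow, if_pos rfl, mul_one]
    · intro b _ hb
      rw [coeff_C_mul, coeff_X_pow, if_neg, mul_zero]
      intro hh
      exact hb (Fin.ext hh).symm
    · intro hh
      exact absurd (Finset.mem_univ _) hh
  refine ⟨c, ?_, ?_, ?_⟩
  · intro hc0
    rw [hc0] at hcu
    simp only [Pi.zero_apply, zero_smul, Finset.sum_const_zero, zero_add] at hcu
    have hu0 := indep p q hp (by omega) u hcu
    apply hx0
    rcases x0 with x | x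
    · have h1 := congrFun hc0 x.1
      rw [hc] at h1
      have h2 := hcoef (F + 1) (fun l => g (Sum.inl (x.1, l))) x.2
      have h3 : (∑ l : Fin (F + 1), C (g (Sum.inl (x.1, l))) * X ^ (l : ℕ) : ℝ[X]) = 0 := h1
      rw [h3, coeff_zero] at h2
      exact h2.symm
    · have h1 := congrFun hu0 x.1
      rw [hu] at h1
      have h2 := hcoef G (fun l => g (Sum.inr (x.1, l))) x.2
      have h3 : (∑ l : Fin G, C (g (Sum.inr (x.1, l))) * X ^ (l : ℕ) : ℝ[X]) = 0 := h1
      rw [h3, coeff_zero] at h2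
      exact h2.symm
  · intro i
    rw [← hF, hc]
    refine natDegree_sum_le_of_forall_le _ _ fun l _ => ?_
    exact (natDegree_C_mul_X_pow_le _ _).trans (Nat.lt_succ_iff.mp l.isLt)
  · intro Y a b hrec w j haj hjb
    have h1 := congrArg (ev S Y w j) hcu
    rw [ev_add, ev_sum, ev_sum, ev_zero] at h1
    have h2 : ∑ t : Fin T, ev S Y w j (u t • Rv p q S t) = 0 := by
      refine Finset.sum_eq_zero fun t _ => ?_
      have ht := t.isLt
      rw [ev_smul, ev_Rv p q (by omega), hrec (j + t) (by omega) (by omega), sub_self, mul_zero]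
    rw [h2, add_zero] at h1
    rw [← h1]
    refine Finset.sum_congr rfl fun i _ => ?_
    have hi : (i : ℕ) * r ≤ K * r := Nat.mul_le_mul_right _ (Nat.lt_succ_iff.mp i.isLt)
    rw [ev_smul, ev_Av (by omega)]

end

end Pool.Agent.L7h52.PR
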