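import Pool.Agent.L7h52.PR.NoPrec

/-!
# The theorem on piecewise holonomic sequences
-/

set_option autoImplicit false

open Filter Topology Set Polynomial MeasureTheory

namespace Pool.Agent.L7h52.PR

open SG (ord NZ)
open Pool.Agent.R321.QA (ct ct_eq ct_le ct_nonneg ct_mono ct_sum ct_not quenched)
open Pool.Agent.Y743.CL (gs Ph Ph_mono Ph_le_one Ph_nonneg lm lm_nonneg Ev unf_hi gs_bot gs_top gs_compl Ph_lip)
open Pool.Agent.R846.UL (cn cn_mono cn_union cn_lt cn_biUnion cn_fin cn_nonneg ordlog cn_eq)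
open Pool.Agent.R846.SP (WW Law zcount pick Ev_iff ord_size span law_few Ph_lt unf_lin)

lemma log_64 {m : ℕ} (hm : 64 ≤ m) : 4 ≤ Real.log m := by
  have hmr : (64 : ℝ) ≤ m := by exact_mod_cast hm
  rw [Real.le_log_iff_exp_le (by linarith)]
  have h1 : Real.exp 4 = Real.exp 1 ^ 4 := by rw [← Real.exp_nat_mul]; norm_num
  rw [h1]
  have h2 := Real.exp_one_lt_d9
  have h3 : Real.exp 1 ^ 4 ≤ 2.7182818286 ^ 4 := pow_le_pow_left₀ (Real.exp_pos 1).le h2.le 4
  refine h3.trans (le_trans ?_ hmr)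
  norm_num

lemma lm_bounds {m : ℕ} (hm : 64 ≤ m) : Real.sqrt (Real.log m) ≤ 5 * lm m ∧ 1 ≤ 5 * lm m := by
  have h4 := log_64 hm
  have h1 : Real.sqrt (Real.log m) ≤ 5 * lm m := by
    unfold lm
    have h3 : Real.pi < 3.15 := Real.pi_lt_d2
    have h5 : 0 ≤ Real.sqrt (Real.log m) := Real.sqrt_nonneg _
    rw [← mul_div_assoc, le_div_iff₀ Real.pi_pos]
    nlinarith
  refine ⟨h1, le_trans ?_ h1⟩
  rw [Real.one_le_sqrt]
  linarith

/-- one block -/
lemma block {k : ℕ} {M e Kx θ : ℝ} {m K n0 z N : ℕ} {y : ℕ → ℝ} (hK : K = k + 2)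
    (hsz : ∀ n : ℕ, n0 ≤ n → ord n ≤ n ∧ (n : ℝ) ≤ ord n ^ 2 ∧ 3 ≤ ord n)
    (hm : 400 * K + 64 ≤ m) (hδ : (1 - Ph Kx) + Ph (-Kx) + 2 * e ≤ 1 / (50 * (K : ℝ) ^ 2))
    (hθ : θ ≤ 1 / (50 * (K : ℝ) ^ 2))
    (he2 : e + 2 * θ < 1 - Ph (K * (Kx + 2 * (5 * |M| + 5)) + 2 * (5 * |M| + 5)))
    (hP : Law e m z) (hQ : Law e m (z + m)) (hR : Law e m (z + (m + m)))
    (hz0 : n0 ≤ z) (hz1 : 1 ≤ z) (hzN : z ≤ 2 * N) (hN : (1 : ℝ) ≤ Real.log N)
    (hlin : (ord (z + 4 * m) - ord z) ^ 2 ≤ ord z)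
    (X : Finset ℕ) (hX : (X.card : ℝ) ≤ θ * m)
    (hy : ∀ j < 4 * m, j ∉ X → |ord (z + j) - y (z + j)| ≤
      M * Real.sqrt (Real.log m) / Real.log N)
    (hrule : Rule K m y z) : False := by
  have hpi := Real.pi_gt_three
  obtain ⟨hlm1, hlm2⟩ := lm_bounds (m := m) (by omega)
  obtain ⟨E, hE⟩ : ∃ E : ℝ, E = |M| * Real.sqrt (Real.log m) + 1 := ⟨_, rfl⟩
  have hEC : E ≤ (5 * |M| + 5) * lm m := by
    rw [hE]
    have h1 : |M| * Real.sqrt (Real.log m) ≤ |M| * (5 * lm m) :=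
      mul_le_mul_of_nonneg_left hlm1 (abs_nonneg _)
    nlinarith
  obtain ⟨s1, s2, s3⟩ := hsz z hz0
  have hlogz : 1 ≤ Real.log (ord z) := by
    rw [Real.le_log_iff_exp_le (by linarith)]
    have := Real.exp_one_lt_d9
    linarith
  have hNpos : (0 : ℝ) < N := by
    rcases Nat.eq_zero_or_pos N with h | h
    · rw [h] at hN
      norm_num at hN
    · exact_mod_cast h
  have hlogz2 : Real.log (ord z) ≤ Real.log N + 1 := by
    have h1 : ord z ≤ 2 * N := by
      refine s1.trans ?_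
      exact_mod_cast hzN
    have h2 : Real.log (ord z) ≤ Real.log (2 * N) := Real.log_le_log (by linarith) h1
    rw [Real.log_mul (by norm_num) hNpos.ne'] at h2
    have h3 : Real.log 2 ≤ 1 := by
      have := Real.log_two_lt_d9
      linarith
    linarith
  obtain ⟨κ, hκ⟩ : ∃ κ : ℝ, κ = (Real.log (ord z) + 1) / (2 * Real.pi) := ⟨_, rfl⟩
  have hκ0 : 0 < κ := by
    rw [hκ]
    positivity
  have hκ1 : κ ≤ Real.log N := by
    rw [hκ, div_le_iff₀ (by positivity)]
    nlinarith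
  have hκ2 : M * Real.sqrt (Real.log m) / Real.log N * κ ≤ |M| * Real.sqrt (Real.log m) := by
    have h1 : M * Real.sqrt (Real.log m) / Real.log N * κ ≤
        |M| * Real.sqrt (Real.log m) / Real.log N * κ := by
      have := le_abs_self M
      gcongr
    refine h1.trans ?_
    rw [div_mul_eq_mul_div, div_le_iff₀ (by linarith)]
    exact mul_le_mul_of_nonneg_left hκ1 (by positivity)
  refine no_prec (K := K) (Kx := Kx) (by omega) (by omega) hEC hδ hθ he2 hP hQ hR
    (fun j => WW z + (y (z + j) - ord z) * κ) X hX ?_ ?_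
  · intro j hj hjX
    have hmono : ord z ≤ ord (z + j) := SG.ord_mono hz1 (by omega)
    have hmono2 : ord (z + j) ≤ ord (z + 4 * m) := SG.ord_mono (by omega) (by omega)
    have hsq : (ord (z + j) - ord z) ^ 2 ≤ ord z := by
      refine le_trans ?_ hlin
      exact pow_le_pow_left₀ (by linarith) (by linarith) 2
    have h1 := unf_lin (by linarith : 0 < ord z) hmono hsq
    have h2 := hy _ hj hjX
    have h3 : |(ord (z + j) - y (z + j)) * κ| ≤ |M| * Real.sqrt (Real.log m) := by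
      rw [abs_mul, abs_of_pos hκ0]
      exact (mul_le_mul_of_nonneg_right h2 hκ0.le).trans hκ2
    have e2 : WW (z + j) - (WW z + (y (z + j) - ord z) * κ) =
        (WW (z + j) - (WW z + (ord (z + j) - ord z) * κ)) + (ord (z + j) - y (z + j)) * κ := by ring
    rw [e2, hE]
    have h4 : |WW (z + j) - (WW z + (ord (z + j) - ord z) * κ)| ≤ 1 := by
      rw [hκ]
      exact h1
    exact (abs_add_le _ _).trans (by linarith)
  · intro r hr1 hr2 j hj1 hj2 Bd hBd
    have e1 : ∀ j : ℕ, WW z + (y (z + (j + m)) - ord z) * κ - (WW z + (y (z + j) - ord z) * κ) - m =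
        κ * (y (z + j + m) - y (z + j) - m / κ) := by
      intro j
      rw [← add_assoc]
      field_simp
      ring
    simp only [e1, abs_mul, abs_of_pos hκ0] at hBd ⊢
    have h1 := hrule (m / κ) r hr1 hr2 j hj1 hj2 (Bd / κ) (fun i hi1 hi2 => by
      obtain ⟨b1, b2⟩ := hBd i hi1 hi2
      rw [le_div_iff₀ hκ0, le_div_iff₀ hκ0]
      exact ⟨by rw [mul_comm]; exact b1, by rw [mul_comm]; exact b2⟩)
    calc κ * |y (z + j + m) - y (z + j) - m / κ| ≤ κ * (K * (Bd / κ)) :=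
          mul_le_mul_of_nonneg_left h1 hκ0.le
      _ = K * Bd := by field_simp

/-- **the main theorem** -/
theorem master (k : ℕ) (M : ℝ) : ∃ δ : ℝ, 0 < δ ∧ ∀ η : ℝ, 0 < η → ∃ m₀ : ℕ, ∀ m : ℕ, m₀ ≤ m →
    ∀ N : ℕ, 1 ≤ N → (m : ℝ) * Real.log m ≤ Real.log N → ∀ L : ℕ, L ≤ N → ∀ B D : ℕ, 1 ≤ B →
    m ^ 4 * (B * (D + 1)) ≤ L →
    cn N {n | ∃ y : ℕ → ℝ, PHol k D B n (n + L) y ∧
      (({i : ℕ | n ≤ i ∧ i < n + L ∧ M * Real.sqrt (Real.log m) / Real.log N < |ord i - y i|} :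
        Set ℕ).ncard : ℝ) ≤ δ * L} ≤ η * N := by
  classical
  have hpi := Real.pi_gt_three
  obtain ⟨K, hK⟩ : ∃ K : ℕ, K = k + 2 := ⟨_, rfl⟩
  have hK1 : 1 ≤ K := by omega
  have hKr : (1 : ℝ) ≤ K := by exact_mod_cast hK1
  obtain ⟨δ, hδ⟩ : ∃ δ : ℝ, δ = 1 / (50 * (K : ℝ) ^ 2) := ⟨_, rfl⟩
  have hδ0 : 0 < δ := by rw [hδ]; positivity
  obtain ⟨K1, hK1'⟩ := gs_bot (show 0 < δ / 4 by positivity)
  obtain ⟨K2, hK2'⟩ := gs_top (show 0 < δ / 4 by positivity)
  obtain ⟨Kx, hKx⟩ : ∃ Kx : ℝ, Kx = max K1 K2 := ⟨_, rfl⟩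
  have hb1 : Ph (-Kx) ≤ δ / 4 := hK1' Kx (by rw [hKx]; exact le_max_left _ _)
  have hb2 : 1 - Ph Kx ≤ δ / 4 := by
    rw [← gs_compl]
    refine le_trans ?_ (hK2' Kx (by rw [hKx]; exact le_max_right _ _))
    exact measureReal_mono Set.Ioi_subset_Ici_self
  obtain ⟨X1, hX1⟩ : ∃ X1 : ℝ, X1 = K * (Kx + 2 * (5 * |M| + 5)) + 2 * (5 * |M| + 5) := ⟨_, rfl⟩
  have hp2 := Ph_lt X1
  obtain ⟨θ, hθ⟩ : ∃ θ : ℝ, θ = min δ ((1 - Ph X1) / 8) := ⟨_, rfl⟩
  have hθ0 : 0 < θ := by rw [hθ]; exact lt_min hδ0 (by linarith)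
  have hθ1 : θ ≤ δ := by rw [hθ]; exact min_le_left _ _
  have hθ2 : θ ≤ (1 - Ph X1) / 8 := by rw [hθ]; exact min_le_right _ _
  refine ⟨θ / 64, by positivity, fun η hη => ?_⟩
  obtain ⟨e, he⟩ : ∃ e : ℝ, e = min (min (δ / 4) ((1 - Ph X1) / 4)) (min 1 (η / 192)) := ⟨_, rfl⟩
  have he0 : 0 < e := by
    rw [he]
    exact lt_min (lt_min (by positivity) (by linarith)) (lt_min one_pos (by positivity))
  have he1 : e ≤ δ / 4 := by rw [he]; exact (min_le_left _ _).trans (min_le_left _ _)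
  have he2 : e ≤ (1 - Ph X1) / 4 := by
    rw [he]; exact (min_le_left _ _).trans (min_le_right _ _)
  have he3 : e ≤ 1 := by rw [he]; exact (min_le_right _ _).trans (min_le_left _ _)
  have he4 : e ≤ η / 192 := by rw [he]; exact (min_le_right _ _).trans (min_le_right _ _)
  obtain ⟨r0, hr0⟩ := (quenched e 1 he0 he3 one_pos le_rfl).exists_forall_of_atTop
  obtain ⟨N0, hN0⟩ := span (by positivity : 0 < η / 64)
  obtain ⟨n0, hn0, hsz⟩ := ord_size
  obtain ⟨N1, hN1⟩ := exists_nat_ge (4 * n0 / η)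
  refine ⟨r0 + (400 * K + 64) + N0 + N1, fun m hm N hN hmN L hLN B D hB hBD => ?_⟩
  have hm64 : 64 ≤ m := by omega
  have hlog4 := log_64 hm64
  have hmr : (64 : ℝ) ≤ m := by exact_mod_cast hm64
  have hNpos : (0 : ℝ) < N := by exact_mod_cast hN
  have h4mN : 4 * (m : ℝ) ≤ Real.log N := by nlinarith
  have hlogN1 : 1 ≤ Real.log N := by linarith
  have hmNr : (m : ℝ) ≤ N := by
    have := Real.log_le_sub_one_of_pos hNpos
    linarith
  have hmNn : m ≤ N := by exact_mod_cast hmNr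
  obtain ⟨W, hW⟩ : ∃ W : ℕ, W = B * (D + 1) := ⟨_, rfl⟩
  have hW1 : 1 ≤ W := by
    rw [hW]
    exact Nat.mul_pos hB (by omega)
  rw [← hW] at hBD
  obtain ⟨T, hT⟩ : ∃ T : ℕ, T = L / (4 * m) := ⟨_, rfl⟩
  have hT1 : 4 * m * T ≤ L := by rw [hT]; exact Nat.mul_div_le _ _
  have hT2 : L < 4 * m * (T + 1) := by rw [hT]; exact Nat.lt_mul_div_succ _ (by omega)
  have hTW : 96 * (K * m ^ 2 * W) ≤ T := by
    have h1 : m * (m ^ 3 * W) < m * (4 * (T + 1)) := by
      calc m * (m ^ 3 * W) = m ^ 4 * W := by ring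
        _ ≤ L := hBD
        _ < _ := hT2
        _ = _ := by ring
    have h2 := lt_of_mul_lt_mul_left h1 (Nat.zero_le _)
    have h3 : 400 * (K * m ^ 2 * W) ≤ m ^ 3 * W := by
      calc 400 * (K * m ^ 2 * W) = (400 * K) * (m ^ 2 * W) := by ring
        _ ≤ m * (m ^ 2 * W) := Nat.mul_le_mul_right _ (by omega)
        _ = _ := by ring
    omega
  have hTpos : 0 < T := by
    have : 0 < K * m ^ 2 * W := by
      have : 0 < m := by omega
      have : 0 < K := by omega
      have : 0 < W := by omega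
      positivity
    omega
  obtain ⟨P, hP⟩ : ∃ P : ℕ → ℕ → Prop, P = fun a n => ¬ Law e m (n + 4 * m * a) ∨
    ¬ Law e m (n + (4 * m * a + m)) ∨ ¬ Law e m (n + (4 * m * a + (m + m))) ∨
    ord (n + 4 * m * a) < (ord (n + 4 * m * a + 4 * m) - ord (n + 4 * m * a)) ^ 2 := ⟨_, rfl⟩
  have hlaw : ∀ s ≤ N, cn N {n | ¬ Law e m (n + s)} ≤ 2 * e * N := by
    intro s hs
    have h1 := hr0 m (by omega) (N + s) (by omega) (by
      have h6 : Real.log N ≤ Real.log ((N + s : ℕ) : ℝ) := by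
        apply Real.log_le_log hNpos
        push_cast
        have : (0 : ℝ) ≤ s := Nat.cast_nonneg _
        linarith
      linarith) m (by linarith) (by omega)
    refine (law_few h1).trans ?_
    push_cast
    have h2 : (s : ℝ) ≤ N := by exact_mod_cast hs
    nlinarith
  have hspan : ∀ s ≤ N, cn N {n | ord (n + s) < (ord (n + s + 4 * m) - ord (n + s)) ^ 2} ≤
      η / 32 * N := by
    intro s hs
    refine (cn_shift N s (fun n => ord n < (ord (n + 4 * m) - ord n) ^ 2)).trans ?_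
    have h6 : Real.log N ≤ Real.log ((N + s : ℕ) : ℝ) := by
      apply Real.log_le_log hNpos
      push_cast
      have : (0 : ℝ) ≤ s := Nat.cast_nonneg _
      linarith
    refine (hN0 (N + s) (by omega) (4 * m) (by omega) (by push_cast at h6 ⊢; linarith)).trans ?_
    push_cast
    have h2 : (s : ℝ) ≤ N := by exact_mod_cast hs
    nlinarith
  have hPa : ∀ a < T, cn N {n | P a n} ≤ η / 16 * N := by
    intro a ha
    have haT : 4 * m * a + 4 * m ≤ L := by
      calc 4 * m * a + 4 * m = 4 * m * (a + 1) := by ring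
        _ ≤ 4 * m * T := Nat.mul_le_mul_left _ ha
        _ ≤ L := hT1
    have e1 : {n | P a n} = {n | ¬ Law e m (n + 4 * m * a)} ∪ ({n | ¬ Law e m (n + (4 * m * a + m))} ∪
        ({n | ¬ Law e m (n + (4 * m * a + (m + m)))} ∪
        {n | ord (n + 4 * m * a) < (ord (n + 4 * m * a + 4 * m) - ord (n + 4 * m * a)) ^ 2})) := by
      rw [hP]
      rfl
    rw [e1]
    have u1 := cn_union N {n | ¬ Law e m (n + 4 * m * a)} ({n | ¬ Law e m (n + (4 * m * a + m))} ∪
        ({n | ¬ Law e m (n + (4 * m * a + (m + m)))} ∪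
        {n | ord (n + 4 * m * a) < (ord (n + 4 * m * a + 4 * m) - ord (n + 4 * m * a)) ^ 2}))
    have u2 := cn_union N {n | ¬ Law e m (n + (4 * m * a + m))}
        ({n | ¬ Law e m (n + (4 * m * a + (m + m)))} ∪
        {n | ord (n + 4 * m * a) < (ord (n + 4 * m * a + 4 * m) - ord (n + 4 * m * a)) ^ 2})
    have u3 := cn_union N {n | ¬ Law e m (n + (4 * m * a + (m + m)))}
        {n | ord (n + 4 * m * a) < (ord (n + 4 * m * a + 4 * m) - ord (n + 4 * m * a)) ^ 2}
    have v1 := hlaw (4 * m * a) (by omega)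
    have v2 := hlaw (4 * m * a + m) (by omega)
    have v3 := hlaw (4 * m * a + (m + m)) (by omega)
    have v4 := hspan (4 * m * a) (by omega)
    have v5 : 6 * e * N ≤ η / 32 * N := by
      apply mul_le_mul_of_nonneg_right _ hNpos.le
      linarith
    linarith
  have hsub : cn N {n | ∃ y : ℕ → ℝ, PHol k D B n (n + L) y ∧
      (({i : ℕ | n ≤ i ∧ i < n + L ∧ M * Real.sqrt (Real.log m) / Real.log N < |ord i - y i|} :
        Set ℕ).ncard : ℝ) ≤ θ / 64 * L} ≤
      cn N ({n | n < n0} ∪ {n | (T : ℝ) ≤ 4 * (({a : ℕ | a < T ∧ P a n} : Set ℕ).ncard : ℝ)}) := by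
    refine cn_mono fun n hn hnN hb => ?_
    by_contra hcon
    rw [Set.mem_union, not_or] at hcon
    obtain ⟨c1, c2⟩ := hcon
    simp only [Set.mem_setOf_eq, not_lt, not_le] at c1 c2
    obtain ⟨y, hy, hexc⟩ := hb
    obtain ⟨Z, hZc, hZ⟩ := zones (m := m) (T := T) hK (by omega) hy hT1
    rw [← hW] at hZc
    obtain ⟨Ξ, hΞ⟩ : ∃ Ξ : Finset ℕ, Ξ = (Finset.Ico n (n + L)).filter (fun i =>
      M * Real.sqrt (Real.log m) / Real.log N < |ord i - y i|) := ⟨_, rfl⟩
    have hΞc : (Ξ.card : ℝ) ≤ θ / 64 * L := by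
      refine le_trans (le_of_eq ?_) hexc
      rw [← Set.ncard_coe_finset, hΞ]
      congr 2
      ext i
      simp [and_assoc]
    obtain ⟨A3, hA3⟩ : ∃ A3 : Finset ℕ, A3 = (Finset.range T).filter (fun a =>
      θ * m < ((Ξ.filter (fun i => (i - n) / (4 * m) = a)).card : ℝ)) := ⟨_, rfl⟩
    have hA3c : 8 * A3.card ≤ T := by
      have h1 : (A3.card : ℝ) * (θ * m) ≤ Ξ.card := by
        have h2 : (A3.card : ℝ) * (θ * m) ≤
            ∑ a ∈ A3, ((Ξ.filter (fun i => (i - n) / (4 * m) = a)).card : ℝ) := by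
          rw [← nsmul_eq_mul, ← Finset.sum_const]
          refine Finset.sum_le_sum fun a ha => ?_
          rw [hA3, Finset.mem_filter] at ha
          exact ha.2.le
        refine h2.trans ?_
        have h3 := Finset.card_eq_sum_card_fiberwise (s := Ξ.filter (fun i => (i - n) / (4 * m) ∈ A3))
          (t := A3) (f := fun i => (i - n) / (4 * m)) (fun i hi => (Finset.mem_filter.mp hi).2)
        have h4 : ∑ a ∈ A3, (Ξ.filter (fun i => (i - n) / (4 * m) = a)).card ≤ Ξ.card := by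
          refine le_trans (le_of_eq ?_) (Finset.card_filter_le Ξ (fun i => (i - n) / (4 * m) ∈ A3))
          rw [h3]
          refine Finset.sum_congr rfl fun a ha => ?_
          congr 1
          ext i
          simp only [Finset.mem_filter]
          constructor
          · rintro ⟨h5, h6⟩
            exact ⟨⟨h5, by rw [h6]; exact ha⟩, h6⟩
          · rintro ⟨⟨h5, _⟩, h6⟩
            exact ⟨h5, h6⟩
        exact_mod_cast h4
      have h5 : (L : ℝ) ≤ 8 * m * T := by
        have h6 : L ≤ 8 * m * T := by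
          have : 4 * m * (T + 1) ≤ 8 * m * T := by nlinarith
          omega
        exact_mod_cast h6
      have h7 : (A3.card : ℝ) * (θ * m) ≤ T / 8 * (θ * m) := by
        refine h1.trans (hΞc.trans ?_)
        calc θ / 64 * L ≤ θ / 64 * (8 * m * T) := by gcongr
          _ = _ := by ring
      have h8 : (A3.card : ℝ) ≤ T / 8 := le_of_mul_le_mul_right h7 (by positivity)
      have h9 : (8 * A3.card : ℝ) ≤ T := by linarith
      exact_mod_cast h9
    obtain ⟨A1, hA1⟩ : ∃ A1 : Finset ℕ, A1 = (Finset.range T).filter (fun a => P a n) := ⟨_, rfl⟩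
    have hA1c : 4 * A1.card < T := by
      have e1 : ({a : ℕ | a < T ∧ P a n} : Set ℕ) = A1 := by
        rw [hA1]
        ext a
        simp
      rw [e1, Set.ncard_coe_finset] at c2
      exact_mod_cast c2
    have hgood : ∃ a, a < T ∧ a ∉ A1 ∧ a ∉ Z ∧ a ∉ A3 := by
      by_contra hcon
      push Not at hcon
      have h1 : Finset.range T ⊆ A1 ∪ (Z ∪ A3) := by
        intro a ha
        rw [Finset.mem_range] at ha
        rw [Finset.mem_union, Finset.mem_union]
        by_cases g1 : a ∈ A1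
        · exact Or.inl g1
        · by_cases g2 : a ∈ Z
          · exact Or.inr (Or.inl g2)
          · exact Or.inr (Or.inr (hcon a ha g1 g2))
      have h2 := Finset.card_le_card h1
      have h3 := Finset.card_union_le A1 (Z ∪ A3)
      have h4 := Finset.card_union_le Z A3
      rw [Finset.card_range] at h2
      have h5 : 12 * K * m ^ 2 * W = 12 * (K * m ^ 2 * W) := by ring
      omega
    obtain ⟨a, haT, ha1, ha2, ha3⟩ := hgood
    have haL : 4 * m * a + 4 * m ≤ L := by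
      calc 4 * m * a + 4 * m = 4 * m * (a + 1) := by ring
        _ ≤ 4 * m * T := Nat.mul_le_mul_left _ haT
        _ ≤ L := hT1
    rw [hA1, Finset.mem_filter, not_and] at ha1
    have ha1' := ha1 (Finset.mem_range.mpr haT)
    rw [hP] at ha1'
    simp only [not_or, not_not, not_lt] at ha1'
    obtain ⟨l1, l2, l3, l4⟩ := ha1'
    rw [hA3, Finset.mem_filter, not_and] at ha3
    have ha3' := ha3 (Finset.mem_range.mpr haT)
    rw [not_lt] at ha3'
    refine block (k := k) (M := M) (e := e) (Kx := Kx) (θ := θ) (m := m) (K := K) (n0 := n0)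
      (z := n + 4 * m * a) (N := N) (y := y) hK hsz (by omega) (by rw [← hδ]; linarith)
      (by rw [← hδ]; exact hθ1) (by rw [← hX1]; linarith) l1 (by rw [add_assoc]; exact l2)
      (by rw [add_assoc]; exact l3) (by omega) (by omega) (by omega) hlogN1 l4
      ((Ξ.filter (fun i => (i - n) / (4 * m) = a)).image (fun i => i - (n + 4 * m * a))) ?_ ?_
      (hZ a haT ha2)
    · refine le_trans ?_ ha3'
      exact_mod_cast Finset.card_image_le
    · intro j hj hjX
      by_contra hcon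
      push Not at hcon
      apply hjX
      rw [Finset.mem_image]
      refine ⟨n + 4 * m * a + j, ?_, by omega⟩
      rw [Finset.mem_filter, hΞ, Finset.mem_filter, Finset.mem_Ico]
      refine ⟨⟨⟨by omega, by omega⟩, hcon⟩, ?_⟩
      have e1 : n + 4 * m * a + j - n = 4 * m * a + j := by omega
      rw [e1, Nat.mul_add_div (by omega), Nat.div_eq_of_lt hj, add_zero]
  refine hsub.trans ((cn_union _ _ _).trans ?_)
  have t1 : cn N {n | n < n0} ≤ η / 4 * N := by
    refine (cn_lt N n0).trans ?_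
    have h1 : 4 * n0 / η ≤ N := hN1.trans ((by
      have : N1 ≤ N := by omega
      exact_mod_cast this : (N1 : ℝ) ≤ N))
    rw [div_le_iff₀ hη] at h1
    linarith
  have t2 := markov hTpos P hPa
  have : 0 < η * N := by positivity
  linarith

end Pool.Agent.L7h52.PR
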