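import Pool.Agent.L7h52.PR.Elim

/-!
# Breakpoints
-/

set_option autoImplicit false

open Polynomial

namespace Pool.Agent.L7h52.PR

/-- the polynomial whose roots are the breakpoints of a relation -/
noncomputable def Br {K : ℕ} (c : Fin (K + 1) → ℝ[X]) : ℝ[X] :=
  open Classical in
  (∏ i, if c i = 0 then 1 else c i) *
    ∏ x : Fin (K + 1) × Fin (K + 1), if c x.1 ^ 2 - c x.2 ^ 2 = 0 then 1 else c x.1 ^ 2 - c x.2 ^ 2

lemma Br_ne {K : ℕ} (c : Fin (K + 1) → ℝ[X]) : Br c ≠ 0 := by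
  classical
  unfold Br
  refine mul_ne_zero (Finset.prod_ne_zero_iff.mpr fun i _ => ?_)
    (Finset.prod_ne_zero_iff.mpr fun x _ => ?_)
  · split_ifs with h
    · exact one_ne_zero
    · exact h
  · split_ifs with h
    · exact one_ne_zero
    · exact h

lemma Br_deg {K F : ℕ} (c : Fin (K + 1) → ℝ[X]) (h : ∀ i, (c i).natDegree ≤ F) :
    (Br c).natDegree ≤ 3 * (K + 1) ^ 2 * F := by
  classical
  unfold Br
  refine natDegree_mul_le.trans ?_
  have h1 : (∏ i, if c i = 0 then 1 else c i : ℝ[X]).natDegree ≤ ∑ _i : Fin (K + 1), F := by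
    refine (natDegree_prod_le _ _).trans (Finset.sum_le_sum fun i _ => ?_)
    split_ifs with h0
    · simp
    · exact h i
  have h2 : (∏ x : Fin (K + 1) × Fin (K + 1), if c x.1 ^ 2 - c x.2 ^ 2 = 0 then 1
      else c x.1 ^ 2 - c x.2 ^ 2 : ℝ[X]).natDegree ≤ ∑ _x : Fin (K + 1) × Fin (K + 1), 2 * F := by
    refine (natDegree_prod_le _ _).trans (Finset.sum_le_sum fun x _ => ?_)
    split_ifs with h0
    · simp
    · refine (natDegree_sub_le _ _).trans (max_le ?_ ?_)
      · refine natDegree_pow_le.trans ?_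
        exact Nat.mul_le_mul_left _ (h _)
      · refine natDegree_pow_le.trans ?_
        exact Nat.mul_le_mul_left _ (h _)
  simp only [Finset.sum_const, Finset.card_univ, Fintype.card_fin, Fintype.card_prod,
    smul_eq_mul] at h1 h2
  nlinarith [Nat.zero_le (K * F), Nat.zero_le (K * K * F)]

/-- on an interval without breakpoints one of the coefficients is the largest one -/
lemma domin {K : ℕ} {c : Fin (K + 1) → ℝ[X]} (hc : c ≠ 0) {u v : ℝ} (huv : u ≤ v)
    (h : ∀ x ∈ Set.Icc u v, (Br c).eval x ≠ 0) :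
    ∃ i0, ∀ x ∈ Set.Icc u v, (c i0).eval x ≠ 0 ∧ ∀ i, |(c i).eval x| ≤ |(c i0).eval x| := by
  classical
  have h1 : ∀ i, c i ≠ 0 → ∀ x ∈ Set.Icc u v, (c i).eval x ≠ 0 := by
    intro i hi x hx h0
    apply h x hx
    unfold Br
    rw [eval_mul, eval_prod, Finset.prod_eq_zero (Finset.mem_univ i), zero_mul]
    rw [if_neg hi, h0]
  have h2 : ∀ i i', c i ^ 2 - c i' ^ 2 ≠ 0 → ∀ x ∈ Set.Icc u v, (c i ^ 2 - c i' ^ 2).eval x ≠ 0 := by
    intro i i' hi x hx h0
    apply h x hx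
    unfold Br
    rw [eval_mul, eval_prod, eval_prod, Finset.prod_eq_zero (Finset.mem_univ (i, i')), mul_zero]
    rw [if_neg hi, h0]
  obtain ⟨i0, _, hi0⟩ := Finset.exists_max_image (Finset.univ : Finset (Fin (K + 1)))
    (fun i => |(c i).eval u|) ⟨0, Finset.mem_univ _⟩
  obtain ⟨i1, hi1⟩ := Function.ne_iff.mp hc
  have hu : u ∈ Set.Icc u v := ⟨le_rfl, huv⟩
  have h3 : 0 < |(c i0).eval u| :=
    lt_of_lt_of_le (abs_pos.mpr (h1 i1 hi1 u hu)) (hi0 i1 (Finset.mem_univ _))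
  have h4 : c i0 ≠ 0 := by
    intro h0
    rw [h0, eval_zero, abs_zero] at h3
    exact lt_irrefl _ h3
  refine ⟨i0, fun x hx => ⟨h1 i0 h4 x hx, fun i => ?_⟩⟩
  rw [← sq_le_sq, ← sub_nonneg]
  rcases eq_or_ne (c i0 ^ 2 - c i ^ 2) 0 with h5 | h5
  · have h6 := congrArg (eval x) h5
    rw [eval_sub, eval_pow, eval_pow, eval_zero] at h6
    exact h6.ge
  · have h6 := h2 i0 i h5
    have h7 : 0 ≤ (c i0 ^ 2 - c i ^ 2).eval u := by
      rw [eval_sub, eval_pow, eval_pow, sub_nonneg, sq_le_sq]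
      exact hi0 i (Finset.mem_univ _)
    by_contra hcon
    push Not at hcon
    have h8 : (c i0 ^ 2 - c i ^ 2).eval x < 0 := by
      rw [eval_sub, eval_pow, eval_pow]
      exact hcon
    have h9 := intermediate_value_Icc' hx.1
      (f := fun t => (c i0 ^ 2 - c i ^ 2).eval t) (Polynomial.continuous _).continuousOn
    obtain ⟨t, ht, ht0⟩ := h9 ⟨h8.le, h7⟩
    exact h6 t ⟨ht.1, ht.2.trans hx.2⟩ ht0

/-- a term is bounded by its neighbours on both sides along a progression -/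
lemma mid' {K r : ℕ} {a : Fin (K + 1) → ℝ} {i0 : Fin (K + 1)} (h0 : a i0 ≠ 0)
    (hmax : ∀ i, |a i| ≤ |a i0|) {H : ℕ → ℝ} {j : ℕ} {B : ℝ} (hj : K * r ≤ j)
    (h1 : ∑ i : Fin (K + 1), a i * H (j - i0 * r + i * r) = 0)
    (hB : ∀ i, 1 ≤ i → i ≤ K → |H (j + i * r)| ≤ B ∧ |H (j - i * r)| ≤ B) : |H j| ≤ K * B := by
  classical
  have ha0 : 0 < |a i0| := abs_pos.mpr h0
  have hi0K : (i0 : ℕ) ≤ K := Nat.lt_succ_iff.mp i0.isLt
  have hi0r : (i0 : ℕ) * r ≤ K * r := Nat.mul_le_mul_right _ hi0K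
  rw [← Finset.add_sum_erase _ _ (Finset.mem_univ i0)] at h1
  have e0 : j - i0 * r + i0 * r = j := by omega
  rw [e0] at h1
  have h2 : |∑ i ∈ Finset.univ.erase i0, a i * H (j - i0 * r + i * r)| ≤
      ∑ i ∈ Finset.univ.erase i0, |a i0| * B := by
    refine (Finset.abs_sum_le_sum_abs _ _).trans (Finset.sum_le_sum fun i hi => ?_)
    rw [abs_mul]
    have hne : (i : ℕ) ≠ i0 := fun h => (Finset.mem_erase.mp hi).1 (Fin.ext h)
    have hiK : (i : ℕ) ≤ K := Nat.lt_succ_iff.mp i.isLt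
    have h3 : |H (j - i0 * r + i * r)| ≤ B := by
      rcases lt_or_gt_of_ne hne with hlt | hgt
      · have e1 : j - (i0 : ℕ) * r + i * r = j - ((i0 : ℕ) - i) * r := by
          rw [Nat.sub_mul]
          have : (i : ℕ) * r ≤ i0 * r := Nat.mul_le_mul_right _ hlt.le
          omega
        rw [e1]
        exact (hB _ (by omega) (by omega)).2
      · have e1 : j - (i0 : ℕ) * r + i * r = j + ((i : ℕ) - i0) * r := by
          rw [Nat.sub_mul]
          have : (i0 : ℕ) * r ≤ i * r := Nat.mul_le_mul_right _ hgt.le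
          omega
        rw [e1]
        exact (hB _ (by omega) (by omega)).1
    exact mul_le_mul (hmax i) h3 (abs_nonneg _) (abs_nonneg _)
  rw [Finset.sum_const, Finset.card_erase_of_mem (Finset.mem_univ _), Finset.card_univ,
    Fintype.card_fin, Nat.add_sub_cancel, nsmul_eq_mul] at h2
  have h4 : |a i0| * |H j| ≤ |a i0| * (K * B) := by
    rw [← abs_mul]
    have h5 : a i0 * H j = -∑ i ∈ Finset.univ.erase i0, a i * H (j - i0 * r + i * r) := by linarith
    rw [h5, abs_neg]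
    calc _ ≤ (K : ℝ) * (|a i0| * B) := h2
      _ = |a i0| * (K * B) := by ring
  exact le_of_mul_le_mul_left h4 ha0

/-- the rule by which a term is bounded by its neighbours in the block which starts at `z` -/
def Rule (K m : ℕ) (y : ℕ → ℝ) (z : ℕ) : Prop :=
  ∀ w : ℝ, ∀ r, 1 ≤ r → 2 * K * r ≤ m → ∀ j, m ≤ j → j < 2 * m → ∀ B : ℝ,
    (∀ i, 1 ≤ i → i ≤ K → |y (z + (j + i * r) + m) - y (z + (j + i * r)) - w| ≤ B ∧
      |y (z + (j - i * r) + m) - y (z + (j - i * r)) - w| ≤ B) →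
    |y (z + j + m) - y (z + j) - w| ≤ K * B

/-- on `{a, …, b - 1}` the sequence `y` satisfies a recurrence whose coefficients are polynomials of
degree at most `D` -/
def Hol (k D a b : ℕ) (y : ℕ → ℝ) : Prop :=
  ∃ p : Fin (k + 1) → ℝ[X], p ≠ 0 ∧ (∀ i, (p i).natDegree ≤ D) ∧ ∃ q : ℝ[X], q.natDegree ≤ D ∧
    ∀ j, a ≤ j → j + k < b → ∑ i : Fin (k + 1), (p i).eval (j : ℝ) * y (j + i) = q.eval (j : ℝ)

/-- the breakpoints of one piece -/
theorem piece {k D K a b m : ℕ} (hK : K = k + 2) (hm : 2 ≤ m) {y : ℕ → ℝ} (h : Hol k D a b y) :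
    ∃ V : ℝ[X], V ≠ 0 ∧ V.natDegree ≤ 12 * K * m ^ 2 * D ∧ ∀ z, a ≤ z → z + 4 * m ≤ b →
      (∀ x ∈ Set.Ico (z : ℝ) (z + 4 * m), V.eval x ≠ 0) → Rule K m y z := by
  classical
  obtain ⟨p, hp, hpD, q, hqD, hrec⟩ := h
  obtain ⟨ρ, hρ⟩ : ∃ ρ : ℕ, ρ = m / (2 * K) := ⟨_, rfl⟩
  have hρ1 : 2 * K * ρ ≤ m := by
    rw [hρ]
    exact Nat.mul_div_le m (2 * K)
  have hex := fun r : ℕ => elim_coef (m := m) (r := r + 1) p q hK rfl (by omega) hp hpD hqD
  choose c hc0 hcd hcr using hex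
  refine ⟨∏ r ∈ Finset.range ρ, Br (c r), Finset.prod_ne_zero_iff.mpr fun r _ => Br_ne _, ?_, ?_⟩
  · refine (natDegree_prod_le _ _).trans ?_
    have h1 : ∀ r ∈ Finset.range ρ, (natDegree ∘ fun r => Br (c r)) r ≤
        3 * (K + 1) ^ 2 * (2 * m * D) := by
      intro r hr
      rw [Finset.mem_range] at hr
      refine (Br_deg (c r) (hcd r)).trans (Nat.mul_le_mul_left _ (Nat.mul_le_mul_right _ ?_))
      have h2 : K * (r + 1) ≤ K * ρ := Nat.mul_le_mul_left _ hr
      have h3 : 2 * (K * ρ) ≤ m := by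
        rw [← mul_assoc]
        exact hρ1
      omega
    refine (Finset.sum_le_sum h1).trans ?_
    rw [Finset.sum_const, Finset.card_range, smul_eq_mul]
    have h2 : (K + 1) ^ 2 ≤ 4 * K ^ 2 := by nlinarith
    calc ρ * (3 * (K + 1) ^ 2 * (2 * m * D)) ≤ ρ * (3 * (4 * K ^ 2) * (2 * m * D)) := by gcongr
      _ = (2 * K * ρ) * (12 * K * m * D) := by ring
      _ ≤ m * (12 * K * m * D) := Nat.mul_le_mul_right _ hρ1
      _ = 12 * K * m ^ 2 * D := by ring
  · intro z haz hzb hV w r hr1 hr2 j hj1 hj2 B hB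
    obtain ⟨r', rfl⟩ : ∃ r', r = r' + 1 := ⟨r - 1, by omega⟩
    have hrρ : r' < ρ := by
      have h1 : r' + 1 ≤ m / (2 * K) := by
        rw [Nat.le_div_iff_mul_le (by omega)]
        calc (r' + 1) * (2 * K) = 2 * K * (r' + 1) := by ring
          _ ≤ m := hr2
      omega
    have hKr : 2 * (K * (r' + 1)) ≤ m := by
      rw [← mul_assoc]
      exact hr2
    have hm' : (2 : ℝ) ≤ m := by exact_mod_cast hm
    have hBr : ∀ x ∈ Set.Icc (z : ℝ) (z + 3 * m), (Br (c r')).eval x ≠ 0 := by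
      intro x hx h0
      apply hV x ⟨hx.1, by linarith [hx.2]⟩
      rw [eval_prod]
      exact Finset.prod_eq_zero (Finset.mem_range.mpr hrρ) h0
    obtain ⟨i0, hi0⟩ := domin (hc0 r') (by linarith) hBr
    have hi0K : (i0 : ℕ) ≤ K := Nat.lt_succ_iff.mp i0.isLt
    have hi0r : (i0 : ℕ) * (r' + 1) ≤ K * (r' + 1) := Nat.mul_le_mul_right _ hi0K
    have hj0 : ((z + (j - i0 * (r' + 1)) : ℕ) : ℝ) ∈ Set.Icc (z : ℝ) (z + 3 * m) := by
      constructor
      · exact_mod_cast Nat.le_add_right _ _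
      · have h1 : z + (j - i0 * (r' + 1)) ≤ z + 3 * m := by omega
        exact_mod_cast h1
    obtain ⟨h1, h2⟩ := hi0 _ hj0
    have h3 := hcr r' y a b hrec w (z + (j - i0 * (r' + 1))) (by omega) (by omega)
    refine mid' (r := r' + 1) (H := fun j => y (z + j + m) - y (z + j) - w) h1 h2 (by omega) ?_ hB
    rw [← h3]
    refine Finset.sum_congr rfl fun i _ => ?_
    have e1 : z + (j - i0 * (r' + 1)) + i * (r' + 1) = z + (j - i0 * (r' + 1) + i * (r' + 1)) := by
      rw [add_assoc]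
    rw [e1]

/-- `y` is made of `B` pieces -/
def PHol (k D B a b : ℕ) (y : ℕ → ℝ) : Prop :=
  ∃ t : ℕ → ℕ, Monotone t ∧ t 0 = a ∧ t B = b ∧ ∀ s < B, Hol k D (t s) (t (s + 1)) y

/-- all blocks but a few follow the rule -/
theorem zones {k D K B n L m T : ℕ} (hK : K = k + 2) (hm : 2 ≤ m) {y : ℕ → ℝ}
    (h : PHol k D B n (n + L) y) (hT : 4 * m * T ≤ L) :
    ∃ Z : Finset ℕ, Z.card ≤ 12 * K * m ^ 2 * (B * (D + 1)) ∧
      ∀ a < T, a ∉ Z → Rule K m y (n + 4 * m * a) := by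
  classical
  obtain ⟨t, hmono, ht0, htB, hp⟩ := h
  have hex := fun s : ℕ => fun hs : s < B => piece hK hm (hp s hs)
  have hex' : ∀ s : ℕ, ∃ V : ℝ[X], V ≠ 0 ∧ V.natDegree ≤ 12 * K * m ^ 2 * D ∧ (s < B → ∀ z,
      t s ≤ z → z + 4 * m ≤ t (s + 1) →
      (∀ x ∈ Set.Ico (z : ℝ) (z + 4 * m), V.eval x ≠ 0) → Rule K m y z) := by
    intro s
    by_cases hs : s < B
    · obtain ⟨V, h1, h2, h3⟩ := hex s hs
      exact ⟨V, h1, h2, fun _ => h3⟩
    · exact ⟨1, one_ne_zero, by simp, fun h => absurd h hs⟩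
  choose V hV0 hVd hV using hex'
  have hmr : (0 : ℝ) < 4 * m := by
    have : (2 : ℝ) ≤ m := by exact_mod_cast hm
    linarith
  obtain ⟨Z, hZ⟩ : ∃ Z : Finset ℕ, Z = (Finset.range B).image (fun s => (t (s + 1) - n) / (4 * m)) ∪
    (Finset.range B).biUnion (fun s => (V s).roots.toFinset.image
      (fun x : ℝ => ⌊(x - n) / (4 * m)⌋₊)) := ⟨_, rfl⟩
  refine ⟨Z, ?_, ?_⟩
  · rw [hZ]
    refine (Finset.card_union_le _ _).trans ?_
    have h1 : ((Finset.range B).image (fun s => (t (s + 1) - n) / (4 * m))).card ≤ B := by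
      refine Finset.card_image_le.trans ?_
      rw [Finset.card_range]
    have h2 : ((Finset.range B).biUnion (fun s => (V s).roots.toFinset.image
        (fun x : ℝ => ⌊(x - n) / (4 * m)⌋₊))).card ≤ B * (12 * K * m ^ 2 * D) := by
      refine Finset.card_biUnion_le.trans ?_
      calc _ ≤ ∑ _s ∈ Finset.range B, 12 * K * m ^ 2 * D := by
            refine Finset.sum_le_sum fun s _ => Finset.card_image_le.trans ?_
            exact (Multiset.toFinset_card_le _).trans ((card_roots' _).trans (hVd s))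
        _ = _ := by rw [Finset.sum_const, Finset.card_range, smul_eq_mul]
    have h3 : B ≤ 12 * K * m ^ 2 * B := by
      apply Nat.le_mul_of_pos_left
      have : 0 < m := by omega
      have : 0 < K := by omega
      positivity
    calc _ ≤ 12 * K * m ^ 2 * B + B * (12 * K * m ^ 2 * D) := by omega
      _ = _ := by ring
  · intro a ha haZ
    rw [hZ, Finset.mem_union, not_or] at haZ
    obtain ⟨hZ1, hZ2⟩ := haZ
    have haT : 4 * m * a + 4 * m ≤ L := by
      calc 4 * m * a + 4 * m = 4 * m * (a + 1) := by ring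
        _ ≤ 4 * m * T := Nat.mul_le_mul_left _ ha
        _ ≤ L := hT
    -- the piece
    have hB0 : ∃ s, s < B ∧ t s ≤ n + 4 * m * a ∧ n + 4 * m * a < t (s + 1) := by
      by_contra hcon
      push Not at hcon
      have h1 : ∀ s, s ≤ B → t s ≤ n + 4 * m * a := by
        intro s
        induction s with
        | zero => intro _; rw [ht0]; exact Nat.le_add_right _ _
        | succ s ih => intro hs; exact hcon s (by omega) (ih (by omega))
      have h2 := h1 B le_rfl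
      omega
    obtain ⟨s, hsB, hs1, hs2⟩ := hB0
    have hs3 : n + 4 * m * a + 4 * m ≤ t (s + 1) := by
      by_contra hcon
      push Not at hcon
      apply hZ1
      rw [Finset.mem_image]
      refine ⟨s, Finset.mem_range.mpr hsB, ?_⟩
      rw [Nat.div_eq_iff (by omega)]
      constructor
      · calc a * (4 * m) = 4 * m * a := by ring
          _ ≤ _ := by omega
      · have : a * (4 * m) = 4 * m * a := by ring
        omega
    refine hV s hsB _ hs1 hs3 fun x hx h0 => hZ2 ?_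
    rw [Finset.mem_biUnion]
    refine ⟨s, Finset.mem_range.mpr hsB, ?_⟩
    rw [Finset.mem_image]
    refine ⟨x, ?_, ?_⟩
    · rw [Multiset.mem_toFinset, mem_roots (hV0 s)]
      exact h0
    · have hx1 : (a : ℝ) ≤ (x - n) / (4 * m) := by
        rw [le_div_iff₀ hmr]
        have := hx.1
        push_cast at this
        linarith
      rw [Nat.floor_eq_iff (le_trans (Nat.cast_nonneg _) hx1)]
      refine ⟨hx1, ?_⟩
      rw [div_lt_iff₀ hmr]
      have := hx.2
      push_cast at this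
      linarith

end Pool.Agent.L7h52.PR
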