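import Pool.Agent.L7h52.PR.Mid
import Pool.Agent.R846.SP.D

/-!
# One good block
-/

set_option autoImplicit false

open Filter Topology Set Polynomial MeasureTheory

namespace Pool.Agent.L7h52.PR

open SG (ord NZ)
open Pool.Agent.R321.QA (ct ct_eq ct_le ct_nonneg ct_mono ct_sum ct_not quenched)
open Pool.Agent.Y743.CL (gs Ph Ph_mono Ph_le_one Ph_nonneg lm lm_nonneg Ev unf_hi gs_bot gs_top gs_compl Ph_lip)
open Pool.Agent.R846.UL (cn cn_mono cn_union cn_lt cn_biUnion cn_fin cn_nonneg ordlog cn_eq)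
open Pool.Agent.R846.SP (WW Law zcount pick Ev_iff ord_size span law_few Ph_lt unf_lin)

lemma law_not' {e X θ : ℝ} {m p : ℕ} (hm : 0 < m) (h : Law e m p) (he : e + 2 * θ < 1 - Ph X)
    (Z : Finset ℕ) (hZ : (Z.card : ℝ) ≤ 2 * θ * m)
    (hall : ∀ j < m, j ∉ Z → WW (p + j + m) - WW (p + j) ≤ m + X * lm m) : False := by
  classical
  have hm' : (0 : ℝ) < m := by exact_mod_cast hm
  have h1 := (abs_le.mp (h X)).2
  have h2 : (m : ℝ) ≤ ct (fun k => Ev X m k) p m + Z.card := by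
    rw [ct_eq]
    have h3 : Finset.Ico p (p + m) ⊆ (Finset.Ico p (p + m)).filter (fun k => Ev X m k) ∪
        Z.image (fun i => p + i) := by
      intro k hk
      rw [Finset.mem_union, Finset.mem_filter, Finset.mem_image]
      have hk' := Finset.mem_Ico.mp hk
      obtain ⟨j, rfl⟩ := Nat.exists_eq_add_of_le hk'.1
      by_cases hj : j ∈ Z
      · exact Or.inr ⟨j, hj, rfl⟩
      · exact Or.inl ⟨hk, (Ev_iff _ _ _).mpr (hall j (by omega) hj)⟩
    have h4 := (Finset.card_le_card h3).trans (Finset.card_union_le _ _)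
    have h5 := Finset.card_image_le (s := Z) (f := fun i => p + i)
    rw [Nat.card_Ico, Nat.add_sub_cancel_left] at h4
    have h6 : m ≤ ((Finset.Ico p (p + m)).filter (fun k => Ev X m k)).card + Z.card := by omega
    exact_mod_cast h6
  nlinarith

/-- **no sequence which follows the rule is near the ordinates along three blocks with the normal
law** -/
theorem no_prec {e C E Kx θ : ℝ} {m p K : ℕ} (hK : 1 ≤ K) (hm : 4 * K < m) (hE : E ≤ C * lm m)
    (hδ : (1 - Ph Kx) + Ph (-Kx) + 2 * e ≤ 1 / (50 * (K : ℝ) ^ 2))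
    (hθ : θ ≤ 1 / (50 * (K : ℝ) ^ 2))
    (he2 : e + 2 * θ < 1 - Ph (K * (Kx + 2 * C) + 2 * C))
    (hP : Law e m p) (hQ : Law e m (p + m)) (hR : Law e m (p + (m + m)))
    (F : ℕ → ℝ) (X : Finset ℕ) (hX : (X.card : ℝ) ≤ θ * m)
    (hF : ∀ j < 4 * m, j ∉ X → |WW (p + j) - F j| ≤ E)
    (hrule : ∀ r, 1 ≤ r → 2 * K * r ≤ m → ∀ j, m ≤ j → j < 2 * m → ∀ B : ℝ,
      (∀ i, 1 ≤ i → i ≤ K → |F (j + i * r + m) - F (j + i * r) - m| ≤ B ∧
        |F (j - i * r + m) - F (j - i * r) - m| ≤ B) → |F (j + m) - F j - m| ≤ K * B) : False := by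
  classical
  have hm0 : 0 < m := by omega
  have hmr : (0 : ℝ) < m := by exact_mod_cast hm0
  have hKr : (1 : ℝ) ≤ K := by exact_mod_cast hK
  obtain ⟨Z, hZ⟩ : ∃ Z : Finset ℕ, Z = (Finset.range (m + (m + m))).filter
    (fun t => ¬ (|WW (p + t + m) - WW (p + t) - m| ≤ Kx * lm m)) := ⟨_, rfl⟩
  have hZc : (Z.card : ℝ) ≤ 3 * (1 / (50 * (K : ℝ) ^ 2)) * m := by
    have e1 : (Z.card : ℝ) = ∑ t ∈ Finset.range (m + (m + m)),
        (if ¬ (|WW (p + t + m) - WW (p + t) - m| ≤ Kx * lm m) then (1 : ℝ) else 0) := by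
      rw [hZ, Finset.card_filter]
      push_cast
      rfl
    rw [e1, Finset.sum_range_add, Finset.sum_range_add]
    have a1 := zcount (Kx := Kx) hP
    have a2 := zcount (Kx := Kx) hQ
    have a3 := zcount (Kx := Kx) hR
    have s2 : ∀ t, p + (m + t) = p + m + t := fun t => by ring
    have s4 : ∀ t, p + (m + m) + t = p + m + m + t := fun t => by ring
    have s5 : ∀ t, p + m + (m + t) = p + m + m + t := fun t => by ring
    simp only [s4] at a3
    simp only [s2, s5]
    have a4 : ((1 - Ph Kx) + Ph (-Kx) + 2 * e) * m ≤ 1 / (50 * (K : ℝ) ^ 2) * m :=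
      mul_le_mul_of_nonneg_right hδ hmr.le
    linarith
  obtain ⟨Z', hZ'⟩ : ∃ Z' : Finset ℕ, Z' = Z ∪ (X ∪ X.image (fun i => i - m)) := ⟨_, rfl⟩
  have hZ'c : (Z'.card : ℝ) ≤ 1 / (10 * (K : ℝ) ^ 2) * m := by
    have h1 : Z'.card ≤ Z.card + (X.card + X.card) := by
      rw [hZ']
      refine (Finset.card_union_le _ _).trans (Nat.add_le_add_left ?_ _)
      exact (Finset.card_union_le _ _).trans (Nat.add_le_add_left Finset.card_image_le _)
    have h2 : (Z'.card : ℝ) ≤ Z.card + (X.card + X.card) := by exact_mod_cast h1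
    have h3 : (X.card : ℝ) ≤ 1 / (50 * (K : ℝ) ^ 2) * m :=
      hX.trans (mul_le_mul_of_nonneg_right hθ hmr.le)
    have h4 : 5 * (1 / (50 * (K : ℝ) ^ 2)) * m = 1 / (10 * (K : ℝ) ^ 2) * m := by
      field_simp
      norm_num
    linarith
  obtain ⟨ρ, hρ⟩ : ∃ ρ : ℕ, ρ = m / (2 * K) := ⟨_, rfl⟩
  have hρ1 : 2 * K * ρ ≤ m := by
    rw [hρ]
    exact Nat.mul_div_le m (2 * K)
  have hρ2 : m < 2 * K * (ρ + 1) := by
    rw [hρ]
    exact Nat.lt_mul_div_succ m (by omega)
  have hZρ : 2 * K * Z'.card < ρ := by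
    have h1 : (2 * K * Z'.card : ℝ) < ρ := by
      have h2 : (m : ℝ) < 2 * K * (ρ + 1) := by exact_mod_cast hρ2
      have h3 : (4 : ℝ) * K < m := by exact_mod_cast hm
      have h4 : 2 * (K : ℝ) * Z'.card ≤ 2 * K * (1 / (10 * (K : ℝ) ^ 2) * m) :=
        mul_le_mul_of_nonneg_left hZ'c (by positivity)
      have h5 : 2 * (K : ℝ) * (1 / (10 * (K : ℝ) ^ 2) * m) = 1 / 5 * (m / K) := by
        field_simp
        norm_num
      have h6 : m / (K : ℝ) < 2 * (ρ + 1) := by
        rw [div_lt_iff₀ (by linarith)]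
        linarith
      have h7 : 4 < m / (K : ℝ) := by
        rw [lt_div_iff₀ (by linarith)]
        linarith
      linarith
    exact_mod_cast h1
  have hKρ : K * ρ ≤ m := by nlinarith
  have hgood : ∀ t, t < 3 * m → t ∉ Z' → |F (t + m) - F t - m| ≤ (Kx + 2 * C) * lm m := by
    intro t ht htZ
    rw [hZ', Finset.mem_union, Finset.mem_union, not_or, not_or] at htZ
    obtain ⟨htZ, htX, htX'⟩ := htZ
    rw [hZ, Finset.mem_filter, not_and, not_not, Finset.mem_range] at htZ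
    have htX2 : t + m ∉ X := by
      intro h
      apply htX'
      rw [Finset.mem_image]
      exact ⟨t + m, h, by omega⟩
    have h1 := abs_le.mp (htZ (by omega))
    have h2 := abs_le.mp (hF (t + m) (by omega) htX2)
    have h3 := abs_le.mp (hF t (by omega) htX)
    rw [← add_assoc] at h2
    rw [abs_le]
    constructor <;> linarith [h1.1, h1.2, h2.1, h2.2, h3.1, h3.2]
  obtain ⟨Y, hY⟩ : ∃ Y : Finset ℕ, Y = X.image (fun i => i - m) ∪ X.image (fun i => i - (m + m)) :=
    ⟨_, rfl⟩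
  have hYc : (Y.card : ℝ) ≤ 2 * θ * m := by
    have h1 : Y.card ≤ X.card + X.card := by
      rw [hY]
      exact (Finset.card_union_le _ _).trans
        (Nat.add_le_add Finset.card_image_le Finset.card_image_le)
    have h2 : (Y.card : ℝ) ≤ X.card + X.card := by exact_mod_cast h1
    linarith
  refine law_not' hm0 hQ he2 Y hYc fun i hi hiY => ?_
  rw [hY, Finset.mem_union, not_or] at hiY
  have hi1 : m + i ∉ X := by
    intro h
    apply hiY.1
    rw [Finset.mem_image]
    exact ⟨m + i, h, by omega⟩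
  have hi2 : m + i + m ∉ X := by
    intro h
    apply hiY.2
    rw [Finset.mem_image]
    exact ⟨m + i + m, h, by omega⟩
  obtain ⟨r, hr1, hr2, hr⟩ := pick hK Z' (m + i) hZρ (by omega)
  have hKr1 : K * r ≤ K * ρ := Nat.mul_le_mul_left _ hr2
  have h2Kρ : 2 * (K * ρ) ≤ m := by
    calc 2 * (K * ρ) = 2 * K * ρ := by ring
      _ ≤ m := hρ1
  have h2Kr : 2 * K * r ≤ m := by
    calc 2 * K * r ≤ 2 * K * ρ := Nat.mul_le_mul_left _ hr2
      _ ≤ m := hρ1
  have h1 := hrule r hr1 h2Kr (m + i) (by omega) (by omega) ((Kx + 2 * C) * lm m) (by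
    intro s hs1 hs2
    have hsr : s * r ≤ K * r := Nat.mul_le_mul_right _ hs2
    obtain ⟨z1, z2⟩ := hr s hs1 hs2
    exact ⟨hgood _ (by omega) z1, hgood _ (by omega) z2⟩)
  have h2 := (abs_le.mp h1).2
  have h3 := abs_le.mp (hF (m + i + m) (by omega) hi2)
  have h4 := abs_le.mp (hF (m + i) (by omega) hi1)
  have e1 : p + (m + i + m) = p + m + i + m := by ring
  have e2 : p + (m + i) = p + m + i := by ring
  rw [e1] at h3
  rw [e2] at h4
  have h5 : ((K : ℝ) * (Kx + 2 * C) + 2 * C) * lm m = K * ((Kx + 2 * C) * lm m) + 2 * (C * lm m) := by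
    ring
  rw [h5]
  linarith [h3.1, h3.2, h4.1, h4.2]

/-- Markov's inequality for the numbers of exceptional blocks -/
lemma markov {N T : ℕ} {ε : ℝ} (hT : 0 < T) (P : ℕ → ℕ → Prop)
    (h : ∀ a < T, cn N {n | P a n} ≤ ε * N) :
    cn N {n | (T : ℝ) ≤ 4 * (({a : ℕ | a < T ∧ P a n} : Set ℕ).ncard : ℝ)} ≤ 4 * ε * N := by
  classical
  have hTr : (0 : ℝ) < T := by exact_mod_cast hT
  have hnc : ∀ n, (({a : ℕ | a < T ∧ P a n} : Set ℕ).ncard : ℝ) =
      ∑ a ∈ Finset.range T, (if P a n then (1 : ℝ) else 0) := by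
    intro n
    have h1 : ({a : ℕ | a < T ∧ P a n} : Set ℕ) = ((Finset.range T).filter fun a => P a n) := by
      ext a
      simp
    rw [h1, Set.ncard_coe_finset, Finset.card_filter]
    push_cast
    rfl
  have h1 : ∑ n ∈ Finset.Icc 1 N, ∑ a ∈ Finset.range T, (if P a n then (1 : ℝ) else 0) ≤
      T * (ε * N) := by
    rw [Finset.sum_comm]
    calc _ ≤ ∑ _a ∈ Finset.range T, ε * N := by
          refine Finset.sum_le_sum fun a ha => ?_
          have h2 := h a (Finset.mem_range.mp ha)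
          rw [cn_eq, Finset.card_filter] at h2
          push_cast at h2
          exact h2
      _ = _ := by rw [Finset.sum_const, Finset.card_range, nsmul_eq_mul]
  have h2 : (T : ℝ) * cn N {n | (T : ℝ) ≤ 4 * (({a : ℕ | a < T ∧ P a n} : Set ℕ).ncard : ℝ)} ≤
      4 * ∑ n ∈ Finset.Icc 1 N, ∑ a ∈ Finset.range T, (if P a n then (1 : ℝ) else 0) := by
    rw [cn_eq, Finset.card_filter]
    push_cast
    rw [Finset.mul_sum, Finset.mul_sum]
    refine Finset.sum_le_sum fun n _ => ?_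
    rw [← hnc]
    split_ifs with h3
    · rw [mul_one]
      exact h3
    · rw [mul_zero]
      positivity
  have h3 : (T : ℝ) * cn N {n | (T : ℝ) ≤ 4 * (({a : ℕ | a < T ∧ P a n} : Set ℕ).ncard : ℝ)} ≤
      T * (4 * ε * N) := by linarith
  exact le_of_mul_le_mul_left h3 hTr

lemma cn_shift (N s : ℕ) (P : ℕ → Prop) : cn N {n | P (n + s)} ≤ cn (N + s) {n | P n} := by
  classical
  rw [cn_eq, cn_eq]
  have : ((Finset.Icc 1 N).filter fun n => P (n + s)).card ≤
      ((Finset.Icc 1 (N + s)).filter P).card := by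
    refine Finset.card_le_card_of_injOn (fun n => n + s) ?_ (fun a _ b _ h => by simpa using h)
    intro n hn
    rw [Finset.mem_coe, Finset.mem_filter, Finset.mem_Icc] at hn
    rw [Finset.mem_coe, Finset.mem_filter, Finset.mem_Icc]
    exact ⟨⟨by change 1 ≤ n + s; omega, by change n + s ≤ N + s; omega⟩, hn.2⟩
  exact_mod_cast this

end Pool.Agent.L7h52.PR
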